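import Pool.Agent.Work.MP_562107_co.Defs

namespace Pool.Agent.Work.MP_562107_co

open Classical

/-- Columns. -/
abbrev Col (m : ℕ) := Fin m → ℤ

/-- Vertical adjacency. -/
def VAdj {m : ℕ} (i j : Fin m) : Prop := i.val + 1 = j.val ∨ j.val + 1 = i.val

/-- Valid columns. -/
def ColOK {m : ℕ} (c : Col m) : Prop :=
  ∀ i j : Fin m, VAdj i j → (c j = c i + 1 ∨ c j = c i - 1)

/-- Valid next columns. -/
noncomputable def nexts {m : ℕ} (c : Col m) : Finset (Col m) :=
  (Fintype.piFinset fun i => ({c i - 1, c i + 1} : Finset ℤ)).filter ColOK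

lemma mem_nexts {m : ℕ} (c c' : Col m) :
    c' ∈ nexts c ↔ (∀ i, c' i = c i - 1 ∨ c' i = c i + 1) ∧ ColOK c' := by
  simp [nexts, Fintype.mem_piFinset]

/-- Extremum of type `e` in a column `c` with neighbours `p`, `q`. -/
def Ext {m : ℕ} (e : ℤ) (p : Option (Col m)) (c : Col m) (q : Option (Col m)) (i : Fin m) : Prop :=
  (∀ x ∈ p, x i = c i + e) ∧ (∀ x ∈ q, x i = c i + e) ∧ ∀ j, VAdj i j → c j = c i + e

/-- Number of extrema in a column. -/
noncomputable def cost {m : ℕ} (p : Option (Col m)) (c : Col m) (q : Option (Col m)) : ℕ :=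
  (Finset.univ.filter fun i => Ext 1 p c q i ∨ Ext (-1) p c q i).card

/-- Number of continuations. -/
noncomputable def cnt {m : ℕ} : ℕ → Option (Col m) → Col m → ℕ → ℕ
  | 0, p, c, k => if cost p c none = k then 1 else 0
  | n + 1, p, c, k => ∑ c' ∈ nexts c,
      if cost p c (some c') ≤ k then cnt n (some c) c' (k - cost p c (some c')) else 0

/-! ### Sequences of columns -/

/-- Previous column. -/
def prv {m n : ℕ} (p : Option (Col m)) (w : Fin (n + 1) → Col m) (j : Fin (n + 1)) :
    Option (Col m) :=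
  if j.val = 0 then p else some (w ⟨j.val - 1, by omega⟩)

/-- Next column. -/
def nxt {m n : ℕ} (w : Fin (n + 1) → Col m) (j : Fin (n + 1)) : Option (Col m) :=
  if h : j.val + 1 < n + 1 then some (w ⟨j.val + 1, h⟩) else none

/-- Total number of extrema. -/
noncomputable def total {m n : ℕ} (p : Option (Col m)) (w : Fin (n + 1) → Col m) : ℕ :=
  ∑ j, cost (prv p w j) (w j) (nxt w j)

/-- Admissible sequences of columns. -/
def Adm {m n : ℕ} (w : Fin (n + 1) → Col m) : Prop :=
  (∀ j, ColOK (w j)) ∧ ∀ j : Fin (n + 1), ∀ h : j.val + 1 < n + 1, w ⟨j.val + 1, h⟩ ∈ nexts (w j)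

lemma total_cons {m n : ℕ} (p : Option (Col m)) (c : Col m) (w : Fin (n + 1) → Col m) :
    total p (Fin.cons c w : Fin (n + 2) → Col m) = cost p c (some (w 0)) + total (some c) w := by
  unfold total
  rw [Fin.sum_univ_succ]
  congr 1
  apply Finset.sum_congr rfl
  intro j _
  congr 1
  · unfold prv
    simp only [Fin.val_succ, Nat.add_eq_zero_iff, one_ne_zero, and_false, if_false,
      Nat.add_sub_cancel]
    by_cases hj : j.val = 0
    · simp only [hj, if_true]
      congr 1
    · simp only [hj, if_false]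
      congr 1
      have : (⟨j.val, by omega⟩ : Fin (n + 2)) = Fin.succ ⟨j.val - 1, by omega⟩ := by
        apply Fin.ext; simp; omega
      rw [this, Fin.cons_succ]
  · unfold nxt
    by_cases hj : j.val + 1 < n + 1
    · have h2 : (Fin.succ j).val + 1 < n + 1 + 1 := by simp; omega
      rw [dif_pos hj, dif_pos h2]
      congr 1
    · have h2 : ¬ (Fin.succ j).val + 1 < n + 1 + 1 := by simp; omega
      rw [dif_neg hj, dif_neg h2]

lemma adm_cons {m n : ℕ} (c : Col m) (w : Fin (n + 1) → Col m) :
    Adm (Fin.cons c w : Fin (n + 2) → Col m) ↔ ColOK c ∧ w 0 ∈ nexts c ∧ Adm w := by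
  unfold Adm
  constructor
  · rintro ⟨h1, h2⟩
    refine ⟨h1 0, h2 0 (by simp), fun j => h1 j.succ, fun j hj => ?_⟩
    exact h2 j.succ (by simp; omega)
  · rintro ⟨h1, h2, h3, h4⟩
    refine ⟨fun j => ?_, fun j => ?_⟩
    · refine Fin.cases ?_ (fun i => ?_) j
      · exact h1
      · exact h3 i
    · refine Fin.cases ?_ (fun i => ?_) j
      · intro _; exact h2
      · intro h; exact h4 i (by simpa using h)

/-- Prepend a column. -/
def pre {m n : ℕ} (c : Col m) (w : Fin (n + 1) → Col m) : Fin (n + 2) → Col m := Fin.cons c w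

lemma cons_inj {m n : ℕ} (c : Col m) : Function.Injective (pre (n := n) c) :=
  Fin.cons_right_injective (α := fun _ => Col m) c

/-- The finite set of admissible sequences. -/
noncomputable def WF {m : ℕ} : (n : ℕ) → Option (Col m) → Col m → ℕ → Finset (Fin (n + 1) → Col m)
  | 0, p, c, k => if cost p c none = k then {fun _ => c} else ∅
  | n + 1, p, c, k => (nexts c).biUnion fun c' =>
      if cost p c (some c') ≤ k then
        (WF n (some c) c' (k - cost p c (some c'))).image (pre c) else ∅

lemma mem_WF {m : ℕ} (n : ℕ) (p : Option (Col m)) (c : Col m) (hc : ColOK c) (k : ℕ)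
    (w : Fin (n + 1) → Col m) : w ∈ WF n p c k ↔ w 0 = c ∧ Adm w ∧ total p w = k := by
  induction n generalizing p c k with
  | zero =>
    have ht : total p w = cost p (w 0) none := by
      simp [total, prv, nxt]
    rw [ht]
    unfold WF
    constructor
    · intro h
      split_ifs at h with h1
      · rw [Finset.mem_singleton] at h
        subst h
        refine ⟨rfl, ⟨fun _ => hc, fun j h => absurd h (by omega)⟩, h1⟩
      · simp at h
    · rintro ⟨h1, _, h3⟩
      rw [h1] at h3
      rw [if_pos h3, Finset.mem_singleton]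
      funext j
      have : j = 0 := Fin.ext (by omega)
      rw [this, h1]
  | succ n ih =>
    unfold WF
    rw [Finset.mem_biUnion]
    constructor
    · rintro ⟨c', hc', h⟩
      split_ifs at h with h1
      · rw [Finset.mem_image] at h
        obtain ⟨w', hw', rfl⟩ := h
        rw [ih _ _ ((mem_nexts _ _).1 hc').2] at hw'
        obtain ⟨h2, h3, h4⟩ := hw'
        refine ⟨rfl, ?_, ?_⟩
        · unfold pre
          rw [adm_cons]
          exact ⟨hc, h2 ▸ hc', h3⟩
        · unfold pre
          rw [total_cons, h4, h2]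
          omega
      · simp at h
    · rintro ⟨h1, h2, h3⟩
      obtain ⟨w', rfl⟩ : ∃ w' : Fin (n + 1) → Col m, w = Fin.cons c w' :=
        ⟨Fin.tail w, by rw [← h1, Fin.cons_self_tail]⟩
      rw [adm_cons] at h2
      rw [total_cons] at h3
      refine ⟨w' 0, h2.2.1, ?_⟩
      rw [if_pos (by omega), Finset.mem_image]
      refine ⟨w', ?_, rfl⟩
      rw [ih _ _ ((mem_nexts _ _).1 h2.2.1).2]
      exact ⟨rfl, h2.2.2, by omega⟩

lemma card_WF {m : ℕ} (n : ℕ) (p : Option (Col m)) (c : Col m) (hc : ColOK c) (k : ℕ) :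
    (WF n p c k).card = cnt n p c k := by
  induction n generalizing p c k with
  | zero =>
    unfold WF cnt
    split_ifs <;> simp
  | succ n ih =>
    unfold WF cnt
    rw [Finset.card_biUnion]
    · apply Finset.sum_congr rfl
      intro c' hc'
      split_ifs with h
      · rw [Finset.card_image_of_injective _ (cons_inj c),
          ih _ _ ((mem_nexts _ _).1 hc').2]
      · simp
    · intro c' hc' c'' hc'' hne
      rw [Function.onFun, Finset.disjoint_left]
      intro w hw hw'
      split_ifs at hw with h1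
      · split_ifs at hw' with h2
        · rw [Finset.mem_image] at hw hw'
          obtain ⟨w1, h3, rfl⟩ := hw
          obtain ⟨w2, h4, h5⟩ := hw'
          have h6 : w2 = w1 := cons_inj c h5
          rw [mem_WF _ _ _ ((mem_nexts _ _).1 hc').2] at h3
          rw [mem_WF _ _ _ ((mem_nexts _ _).1 hc'').2] at h4
          apply hne
          rw [← h3.1, ← h4.1, h6]
        · simp at hw'
      · simp at hw

/-! ### Starting columns -/

/-- Valid columns with first entry zero. -/
noncomputable def starts (m : ℕ) : Finset (Col m) :=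
  (Fintype.piFinset fun _ => Finset.Icc (-(m : ℤ)) m).filter
    fun c => ColOK c ∧ ∀ i : Fin m, i.val = 0 → c i = 0

lemma mem_starts {m : ℕ} (c : Col m) :
    c ∈ starts m ↔ ColOK c ∧ ∀ i : Fin m, i.val = 0 → c i = 0 := by
  unfold starts
  rw [Finset.mem_filter]
  refine ⟨fun h => h.2, fun h => ⟨?_, h⟩⟩
  rw [Fintype.mem_piFinset]
  have key : ∀ k : ℕ, ∀ hk : k < m, -(k : ℤ) ≤ c ⟨k, hk⟩ ∧ c ⟨k, hk⟩ ≤ k := by
    intro k
    induction k with
    | zero =>
      intro hk
      have := h.2 ⟨0, hk⟩ rfl
      rw [this]; simp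
    | succ k ih =>
      intro hk
      have h1 := ih (by omega)
      have h2 := h.1 ⟨k, by omega⟩ ⟨k + 1, hk⟩ (Or.inl rfl)
      push_cast
      omega
  intro i
  have h1 := key i.val i.2
  have h2 := i.2
  rw [Finset.mem_Icc]
  simp only [Fin.eta] at h1
  omega

/-! ### The bridge -/

/-- From height functions to sequences of columns. -/
def toCols {m n : ℕ} (h : Fin m × Fin n → ℤ) : Fin n → Col m := fun j i => h (i, j)

lemma toCols_injective {m n : ℕ} :
    Function.Injective (toCols : (Fin m × Fin n → ℤ) → Fin n → Col m) := by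
  intro h h' hh
  funext ⟨i, j⟩
  exact congrFun (congrFun hh j) i

lemma abs_one_iff (a b : ℤ) : |a - b| = 1 ↔ (b = a + 1 ∨ b = a - 1) := by
  rw [abs_eq (by norm_num)]
  omega

lemma isHeight_iff {m n : ℕ} (h : Fin m × Fin (n + 1) → ℤ) :
    IsHeight h ↔ Adm (toCols h) ∧ (∀ i : Fin m, i.val = 0 → toCols h 0 i = 0) := by
  constructor
  · rintro ⟨h1, h2⟩
    have hcol : ∀ j, ColOK (toCols h j) := by
      intro j i i' hi
      have := h1 (i, j) (i', j) (Or.inr ⟨rfl, hi⟩)
      exact (abs_one_iff _ _).1 this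
    refine ⟨⟨hcol, ?_⟩, ?_⟩
    · intro j hj
      rw [mem_nexts]
      refine ⟨fun i => ?_, hcol _⟩
      have := h1 (i, j) (i, ⟨j.val + 1, hj⟩) (Or.inl ⟨rfl, Or.inl rfl⟩)
      rcases (abs_one_iff _ _).1 this with h3 | h3
      · right; exact h3
      · left; exact h3
    · intro i hi
      exact h2 (i, 0) hi rfl
  · rintro ⟨⟨h1, h2⟩, h3⟩
    refine ⟨?_, ?_⟩
    · rintro ⟨i, j⟩ ⟨i', j'⟩ (⟨h4, h5⟩ | ⟨h4, h5⟩)
      · simp only at h4 h5
        subst h4
        rw [abs_one_iff]
        rcases h5 with h5 | h5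
        · have h6 := (mem_nexts _ _).1 (h2 j (by omega))
          have h7 := h6.1 i
          have h8 : (⟨j.val + 1, by omega⟩ : Fin (n + 1)) = j' := Fin.ext h5
          rw [h8] at h7
          exact h7.symm
        · have h6 := (mem_nexts _ _).1 (h2 j' (by omega))
          have h7 := h6.1 i
          have h8 : (⟨j'.val + 1, by omega⟩ : Fin (n + 1)) = j := Fin.ext h5
          rw [h8] at h7
          unfold toCols at h7
          omega
      · simp only at h4 h5
        subst h4
        rw [abs_one_iff]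
        exact h1 j i i' h5
    · rintro ⟨i, j⟩ hi hj
      have : j = 0 := Fin.ext hj
      subst this
      exact h3 i hi

lemma ext_iff {m n : ℕ} (h : Fin m × Fin (n + 1) → ℤ) (e : ℤ) (i : Fin m) (j : Fin (n + 1)) :
    (∀ u, GridAdj (i, j) u → h u = h (i, j) + e) ↔
      Ext e (prv none (toCols h) j) (toCols h j) (nxt (toCols h) j) i := by
  unfold Ext
  constructor
  · intro H
    refine ⟨?_, ?_, ?_⟩
    · intro x hx
      unfold prv at hx
      split_ifs at hx with h1
      · simp at hx
      · rw [Option.mem_some_iff] at hx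
        subst hx
        exact H (i, ⟨j.val - 1, by omega⟩) (Or.inl ⟨rfl, Or.inr (by simp; omega)⟩)
    · intro x hx
      unfold nxt at hx
      split_ifs at hx with h1
      · rw [Option.mem_some_iff] at hx
        subst hx
        exact H (i, ⟨j.val + 1, h1⟩) (Or.inl ⟨rfl, Or.inl rfl⟩)
      · simp at hx
    · intro i' hi'
      exact H (i', j) (Or.inr ⟨rfl, hi'⟩)
  · rintro ⟨H1, H2, H3⟩ ⟨i', j'⟩ (⟨h4, h5⟩ | ⟨h4, h5⟩)
    · simp only at h4 h5
      subst h4
      rcases h5 with h5 | h5
      · apply H2 (toCols h j')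
        unfold nxt
        rw [dif_pos (by omega)]
        rw [Option.mem_some_iff]
        congr 1
        exact Fin.ext h5
      · apply H1 (toCols h j')
        unfold prv
        rw [if_neg (by omega)]
        rw [Option.mem_some_iff]
        congr 1
        exact Fin.ext (by simp; omega)
    · simp only at h4 h5
      subst h4
      exact H3 i' h5

lemma numExtrema_eq {m n : ℕ} (h : Fin m × Fin (n + 1) → ℤ) :
    numExtrema h = total none (toCols h) := by
  unfold numExtrema total cost
  have e1 : {v : Fin m × Fin (n + 1) | IsStrictMin h v ∨ IsStrictMax h v} =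
      ↑((Finset.univ : Finset (Fin m × Fin (n + 1))).filter fun v =>
        Ext 1 (prv none (toCols h) v.2) (toCols h v.2) (nxt (toCols h) v.2) v.1 ∨
        Ext (-1) (prv none (toCols h) v.2) (toCols h v.2) (nxt (toCols h) v.2) v.1) := by
    ext ⟨i, j⟩
    simp only [Set.mem_ofPred_eq, Finset.coe_filter, Finset.mem_univ, true_and]
    rw [← ext_iff, ← ext_iff]
    rfl
  rw [e1, Set.ncard_coe_finset]
  have e2 : ((Finset.univ : Finset (Fin m × Fin (n + 1))).filter fun v =>
        Ext 1 (prv none (toCols h) v.2) (toCols h v.2) (nxt (toCols h) v.2) v.1 ∨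
        Ext (-1) (prv none (toCols h) v.2) (toCols h v.2) (nxt (toCols h) v.2) v.1).card =
      ∑ j : Fin (n + 1), (((Finset.univ : Finset (Fin m × Fin (n + 1))).filter fun v =>
        Ext 1 (prv none (toCols h) v.2) (toCols h v.2) (nxt (toCols h) v.2) v.1 ∨
        Ext (-1) (prv none (toCols h) v.2) (toCols h v.2) (nxt (toCols h) v.2) v.1).filter
          fun v => v.2 = j).card :=
    Finset.card_eq_sum_card_fiberwise (fun _ _ => Finset.mem_coe.2 (Finset.mem_univ _))
  rw [e2]
  apply Finset.sum_congr rfl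
  intro j _
  symm
  apply Finset.card_bij (fun i _ => (i, j))
  · intro i hi
    simp only [Finset.mem_filter, Finset.mem_univ, true_and] at hi ⊢
    exact ⟨hi, trivial⟩
  · intro i _ i' _ h
    exact (Prod.mk.inj h).1
  · rintro ⟨i, j'⟩ h
    simp only [Finset.mem_filter, Finset.mem_univ, true_and] at h
    obtain ⟨h1, h2⟩ := h
    subst h2
    exact ⟨i, by simpa using h1, rfl⟩

/-- The bridge between height functions and the column recursion. -/
lemma E_eq (d m n : ℕ) : E d m (n + 1) = ∑ c ∈ starts m, cnt n none c d := by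
  unfold E
  have e1 : (toCols '' {h : Fin m × Fin (n + 1) → ℤ | IsHeight h ∧ numExtrema h = d}) =
      ↑((starts m).biUnion fun c => WF n none c d) := by
    ext w
    simp only [Set.mem_image, Set.mem_ofPred_eq, Finset.coe_biUnion, Set.mem_iUnion,
      Finset.mem_coe]
    constructor
    · rintro ⟨h, ⟨h1, h2⟩, rfl⟩
      rw [isHeight_iff] at h1
      have hok : ColOK (toCols h 0) := h1.1.1 0
      refine ⟨toCols h 0, (mem_starts _).2 ⟨hok, h1.2⟩, ?_⟩
      rw [mem_WF _ _ _ hok]
      exact ⟨rfl, h1.1, by rw [← numExtrema_eq]; exact h2⟩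
    · rintro ⟨c, hc, hw⟩
      rw [mem_starts] at hc
      rw [mem_WF _ _ _ hc.1] at hw
      refine ⟨fun v => w v.2 v.1, ⟨?_, ?_⟩, rfl⟩
      · rw [isHeight_iff]
        refine ⟨hw.2.1, fun i hi => ?_⟩
        have : w 0 i = 0 := by rw [hw.1]; exact hc.2 i hi
        exact this
      · rw [numExtrema_eq]
        exact hw.2.2
  rw [← Set.ncard_image_of_injective _ toCols_injective, e1, Set.ncard_coe_finset,
    Finset.card_biUnion]
  · apply Finset.sum_congr rfl
    intro c hc
    exact card_WF _ _ _ ((mem_starts _).1 hc).1 _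
  · intro c hc c' hc' hne
    rw [Function.onFun, Finset.disjoint_left]
    intro w hw hw'
    rw [mem_WF _ _ _ ((mem_starts _).1 hc).1] at hw
    rw [mem_WF _ _ _ ((mem_starts _).1 hc').1] at hw'
    exact hne (hw.1.symm.trans hw'.1)

end Pool.Agent.Work.MP_562107_co
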