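import Pool.Agent.Work.MP_562107_co.Cols

namespace Pool.Agent.Work.MP_562107_co

open Classical

/-- `x` is a valid column horizontally adjacent to `c`. -/
def Near {m : ℕ} (c x : Col m) : Prop := (∀ i, x i = c i - 1 ∨ x i = c i + 1) ∧ ColOK x

lemma near_iff {m : ℕ} (c x : Col m) : Near c x ↔ x ∈ nexts c := (mem_nexts c x).symm

lemma Near.symm' {m : ℕ} {c x : Col m} (hc : ColOK c) (h : Near c x) : Near x c :=
  ⟨fun i => by have := h.1 i; omega, hc⟩

lemma vadj_symm {m : ℕ} {i j : Fin m} (h : VAdj i j) : VAdj j i := Or.symm h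

lemma exists_vadj {m : ℕ} (hm : 2 ≤ m) (i : Fin m) : ∃ j : Fin m, VAdj i j := by
  by_cases h : i.val + 1 < m
  · exact ⟨⟨i.val + 1, h⟩, Or.inl rfl⟩
  · exact ⟨⟨i.val - 1, by omega⟩, Or.inr (by simp; omega)⟩

lemma ext_exists {m : ℕ} {e : ℤ} (he : e = 1 ∨ e = -1) {p : Option (Col m)} {c : Col m}
    {q : Option (Col m)} (hc : ColOK c) (hp : ∀ x ∈ p, Near c x) (hq : ∀ x ∈ q, Near c x)
    (h : ∃ i, (∀ x ∈ p, x i = c i + e) ∧ (∀ x ∈ q, x i = c i + e)) :
    ∃ i, Ext e p c q i := by
  set S := Finset.univ.filter fun i => (∀ x ∈ p, x i = c i + e) ∧ (∀ x ∈ q, x i = c i + e)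
    with hS
  have hSne : S.Nonempty := by
    obtain ⟨i, hi⟩ := h
    exact ⟨i, by rw [hS, Finset.mem_filter]; exact ⟨Finset.mem_univ _, hi⟩⟩
  obtain ⟨i, hiS, hmax⟩ := Finset.exists_max_image S (fun i => -e * c i) hSne
  have hi : (∀ x ∈ p, x i = c i + e) ∧ (∀ x ∈ q, x i = c i + e) := by
    rw [hS, Finset.mem_filter] at hiS; exact hiS.2
  refine ⟨i, hi.1, hi.2, ?_⟩
  intro j hj
  by_contra hcon
  have hcj := hc i j hj
  have hcj' : c j = c i - e := by rcases he with rfl | rfl <;> omega
  -- j is not in S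
  have hjS : j ∉ S := by
    intro hjS
    have := hmax j hjS
    rcases he with rfl | rfl <;> simp at this <;> omega
  apply hjS
  rw [hS, Finset.mem_filter]
  refine ⟨Finset.mem_univ _, ?_, ?_⟩
  · intro x hx
    have h1 := (hp x hx).1 j
    have h2 := hi.1 x hx
    have h3 := (hp x hx).2 i j hj
    rcases he with rfl | rfl <;> omega
  · intro x hx
    have h1 := (hq x hx).1 j
    have h2 := hi.2 x hx
    have h3 := (hq x hx).2 i j hj
    rcases he with rfl | rfl <;> omega

lemma one_le_cost {m : ℕ} {e : ℤ} (he : e = 1 ∨ e = -1) {p : Option (Col m)} {c : Col m}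
    {q : Option (Col m)} (h : ∃ i, Ext e p c q i) : 1 ≤ cost p c q := by
  obtain ⟨i, hi⟩ := h
  unfold cost
  rw [Nat.succ_le_iff, Finset.card_pos]
  refine ⟨i, ?_⟩
  rw [Finset.mem_filter]
  refine ⟨Finset.mem_univ _, ?_⟩
  rcases he with rfl | rfl
  · exact Or.inl hi
  · exact Or.inr hi

lemma two_le_cost {m : ℕ} (hm : 2 ≤ m) {p : Option (Col m)} {c : Col m}
    {q : Option (Col m)} (h : ∃ i, Ext 1 p c q i) (h' : ∃ i, Ext (-1) p c q i) :
    2 ≤ cost p c q := by
  obtain ⟨i, hi⟩ := h
  obtain ⟨i', hi'⟩ := h'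
  unfold cost
  have hne : i ≠ i' := by
    rintro rfl
    obtain ⟨j, hj⟩ := exists_vadj hm i
    have h1 := hi.2.2 j hj
    have h2 := hi'.2.2 j hj
    omega
  have hsub : ({i, i'} : Finset (Fin m)) ⊆
      Finset.univ.filter fun i => Ext 1 p c q i ∨ Ext (-1) p c q i := by
    intro k hk
    rw [Finset.mem_insert, Finset.mem_singleton] at hk
    rw [Finset.mem_filter]
    refine ⟨Finset.mem_univ _, ?_⟩
    rcases hk with rfl | rfl
    · exact Or.inl hi
    · exact Or.inr hi'
  have := Finset.card_le_card hsub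
  rwa [Finset.card_pair hne] at this

lemma cost_symm {m : ℕ} (p : Option (Col m)) (c : Col m) (q : Option (Col m)) :
    cost p c q = cost q c p := by
  unfold cost Ext
  congr 1
  ext i
  simp only [Finset.mem_filter, Finset.mem_univ, true_and]
  tauto

/-- Continuation in the same direction. -/
def cont {m : ℕ} (x c : Col m) : Col m := fun i => 2 * c i - x i

lemma cost_turn_pos {m : ℕ} {x c y : Col m} (hc : ColOK c) (hx : Near c x) (hy : Near c y)
    (hne : y ≠ cont x c) : 1 ≤ cost (some x) c (some y) := by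
  obtain ⟨i, hi⟩ : ∃ i, y i ≠ cont x c i := by
    by_contra hcon
    push Not at hcon
    exact hne (funext hcon)
  unfold cont at hi
  have h1 := hx.1 i
  have h2 := hy.1 i
  have he : (x i - c i = 1 ∨ x i - c i = -1) := by omega
  apply one_le_cost he
  apply ext_exists he hc
  · intro z hz; rw [Option.mem_some_iff] at hz; subst hz; exact hx
  · intro z hz; rw [Option.mem_some_iff] at hz; subst hz; exact hy
  · refine ⟨i, ?_, ?_⟩
    · intro z hz; rw [Option.mem_some_iff] at hz; subst hz; ring
    · intro z hz; rw [Option.mem_some_iff] at hz; subst hz; omega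

lemma cost_end_pos {m : ℕ} (hm : 2 ≤ m) {x c : Col m} (hc : ColOK c) (hx : Near c x) :
    1 ≤ cost (some x) c none := by
  have h1 := hx.1 ⟨0, by omega⟩
  have he : (x ⟨0, by omega⟩ - c ⟨0, by omega⟩ = 1 ∨ x ⟨0, by omega⟩ - c ⟨0, by omega⟩ = -1) := by
    omega
  apply one_le_cost he
  apply ext_exists he hc
  · intro z hz; rw [Option.mem_some_iff] at hz; subst hz; exact hx
  · intro z hz; simp at hz
  · refine ⟨⟨0, by omega⟩, ?_, ?_⟩
    · intro z hz; rw [Option.mem_some_iff] at hz; subst hz; ring
    · intro z hz; simp at hz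

/-- Uniform step. -/
def Unif {m : ℕ} (x c : Col m) : Prop := (∀ i, c i = x i + 1) ∨ (∀ i, c i = x i - 1)

lemma not_unif {m : ℕ} {x c : Col m} (h : Near x c) (hn : ¬ Unif x c) :
    (∃ i, c i = x i + 1) ∧ ∃ i, c i = x i - 1 := by
  unfold Unif at hn
  push Not at hn
  obtain ⟨⟨i, hi⟩, ⟨j, hj⟩⟩ := hn
  have h1 := h.1 i
  have h2 := h.1 j
  exact ⟨⟨j, by omega⟩, ⟨i, by omega⟩⟩

lemma cost_end_two {m : ℕ} (hm : 2 ≤ m) {x c : Col m} (hc : ColOK c) (hx : Near c x)
    (hn : ¬ Unif x c) : 2 ≤ cost (some x) c none := by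
  obtain ⟨⟨i, hi⟩, ⟨j, hj⟩⟩ := not_unif (hx.symm' hc) hn
  apply two_le_cost hm
  · apply ext_exists (Or.inl rfl) hc
    · intro z hz; rw [Option.mem_some_iff] at hz; subst hz; exact hx
    · intro z hz; simp at hz
    · refine ⟨j, ?_, ?_⟩
      · intro z hz; rw [Option.mem_some_iff] at hz; subst hz; omega
      · intro z hz; simp at hz
  · apply ext_exists (Or.inr rfl) hc
    · intro z hz; rw [Option.mem_some_iff] at hz; subst hz; exact hx
    · intro z hz; simp at hz
    · refine ⟨i, ?_, ?_⟩
      · intro z hz; rw [Option.mem_some_iff] at hz; subst hz; omega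
      · intro z hz; simp at hz

lemma unif_symm {m : ℕ} {x c : Col m} (h : Unif x c) : Unif c x := by
  rcases h with h | h
  · right; intro i; rw [h i]; ring
  · left; intro i; rw [h i]; ring

/-- A non-uniform step cannot be repeated. -/
lemma cont_not_mem {m : ℕ} {x c : Col m} (hc : ColOK c) (hx : Near c x) (hn : ¬ Unif x c) :
    cont x c ∉ nexts c := by
  intro hmem
  rw [mem_nexts] at hmem
  have hok := hmem.2
  apply hn
  -- all adjacent rows have the same step
  have hadj : ∀ i j : Fin m, VAdj i j → c i - x i = c j - x j := by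
    intro i j hij
    have h1 := hok i j hij
    have h2 := hc i j hij
    have h3 := hx.2 i j hij
    have h4 := hx.1 i
    have h5 := hx.1 j
    unfold cont at h1
    omega
  have hall : ∀ k : ℕ, ∀ hk : k < m, c ⟨k, hk⟩ - x ⟨k, hk⟩ = c ⟨0, by omega⟩ - x ⟨0, by omega⟩ := by
    intro k
    induction k with
    | zero => intro _; rfl
    | succ k ih =>
      intro hk
      rw [← ih (by omega)]
      exact hadj _ _ (Or.inr rfl)
  by_cases hm : 0 < m
  · have h0 := hx.1 ⟨0, hm⟩
    rcases h0 with h0 | h0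
    · left
      intro i
      have := hall i.val i.2
      simp only [Fin.eta] at this
      omega
    · right
      intro i
      have := hall i.val i.2
      simp only [Fin.eta] at this
      omega
  · left
    intro i
    exact absurd i.2 (by omega)

/-! ### Vertical extrema -/

/-- Shift of a column. -/
def sh {m : ℕ} (c : Col m) (a : ℤ) : Col m := fun i => c i + a

/-- Number of vertical extrema of type `e`. -/
noncomputable def vt {m : ℕ} (e : ℤ) (c : Col m) : ℕ :=
  (Finset.univ.filter fun i => ∀ j, VAdj i j → c j = c i + e).card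

lemma vt_sh {m : ℕ} (e a : ℤ) (c : Col m) : vt e (sh c a) = vt e c := by
  unfold vt sh
  congr 1
  ext i
  simp only [Finset.mem_filter, Finset.mem_univ, true_and]
  constructor
  · intro h j hj; have := h j hj; linarith
  · intro h j hj; have := h j hj; linarith

lemma colOK_sh {m : ℕ} (c : Col m) (a : ℤ) (h : ColOK c) : ColOK (sh c a) := by
  intro i j hij
  have := h i j hij
  unfold sh
  omega

lemma near_sh {m : ℕ} {c : Col m} {e : ℤ} (he : e = 1 ∨ e = -1) (h : ColOK c) :
    Near c (sh c e) := by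
  refine ⟨fun i => ?_, colOK_sh _ _ h⟩
  unfold sh
  rcases he with rfl | rfl
  · right; rfl
  · left; ring

lemma sh_sh {m : ℕ} (c : Col m) (a b : ℤ) : sh (sh c a) b = sh c (a + b) := by
  funext i; unfold sh; ring

lemma sh_zero {m : ℕ} (c : Col m) : sh c 0 = c := by
  funext i; unfold sh; ring

lemma cost_none_sh {m : ℕ} {e : ℤ} (he : e = 1 ∨ e = -1) (c : Col m) :
    cost none c (some (sh c e)) = vt e c := by
  unfold cost vt Ext sh
  congr 1
  ext i
  simp only [Finset.mem_filter, Finset.mem_univ, true_and, Option.mem_some_iff]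
  rcases he with rfl | rfl
  · constructor
    · rintro (⟨_, _, h⟩ | ⟨_, h, _⟩)
      · exact h
      · have := h _ rfl; omega
    · intro h
      left
      refine ⟨by simp, ?_, h⟩
      intro x hx; subst hx; rfl
  · constructor
    · rintro (⟨_, h, _⟩ | ⟨_, _, h⟩)
      · have := h _ rfl; omega
      · exact h
    · intro h
      right
      refine ⟨by simp, ?_, h⟩
      intro x hx; subst hx; rfl

lemma cost_sh_none {m : ℕ} {e : ℤ} (he : e = 1 ∨ e = -1) (c : Col m) :
    cost (some (sh c e)) c none = vt e c := by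
  rw [cost_symm, cost_none_sh he]

lemma cost_sh_sh {m : ℕ} {e : ℤ} (he : e = 1 ∨ e = -1) (c : Col m) :
    cost (some (sh c e)) c (some (sh c e)) = vt e c := by
  unfold cost vt Ext sh
  congr 1
  ext i
  simp only [Finset.mem_filter, Finset.mem_univ, true_and, Option.mem_some_iff]
  rcases he with rfl | rfl
  · constructor
    · rintro (⟨_, _, h⟩ | ⟨_, h, _⟩)
      · exact h
      · have := h _ rfl; omega
    · intro h
      left
      refine ⟨?_, ?_, h⟩
      · intro x hx; subst hx; rfl
      · intro x hx; subst hx; rfl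
  · constructor
    · rintro (⟨_, h, _⟩ | ⟨_, _, h⟩)
      · have := h _ rfl; omega
      · exact h
    · intro h
      right
      refine ⟨?_, ?_, h⟩
      · intro x hx; subst hx; rfl
      · intro x hx; subst hx; rfl

lemma cost_cont {m : ℕ} {e : ℤ} (he : e = 1 ∨ e = -1) (c : Col m) :
    cost (some (sh c (-e))) c (some (sh c e)) = 0 := by
  unfold cost
  rw [Finset.card_eq_zero, Finset.filter_eq_empty_iff]
  intro i _
  unfold Ext sh
  rintro (⟨h1, h2, _⟩ | ⟨h1, h2, _⟩)
  · have h3 := h1 _ (Option.mem_some_iff.2 rfl)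
    have h4 := h2 _ (Option.mem_some_iff.2 rfl)
    rcases he with rfl | rfl <;> omega
  · have h3 := h1 _ (Option.mem_some_iff.2 rfl)
    have h4 := h2 _ (Option.mem_some_iff.2 rfl)
    rcases he with rfl | rfl <;> omega

lemma cont_sh {m : ℕ} (c : Col m) (e : ℤ) : cont (sh c (-e)) c = sh c e := by
  funext i; unfold cont sh; ring

lemma unif_sh {m : ℕ} {e : ℤ} (he : e = 1 ∨ e = -1) (c : Col m) : Unif (sh c (-e)) c := by
  unfold Unif sh
  rcases he with rfl | rfl
  · left; intro i; ring
  · right; intro i; ring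

lemma unif_sh' {m : ℕ} {e : ℤ} (he : e = 1 ∨ e = -1) (c : Col m) : Unif c (sh c e) := by
  unfold Unif sh
  rcases he with rfl | rfl
  · left; intro i; ring
  · right; intro i; ring

lemma unif_iff {m : ℕ} (x c : Col m) : Unif x c ↔ ∃ e : ℤ, (e = 1 ∨ e = -1) ∧ x = sh c (-e) := by
  constructor
  · rintro (h | h)
    · exact ⟨1, Or.inl rfl, by funext i; unfold sh; rw [h i]; ring⟩
    · exact ⟨-1, Or.inr rfl, by funext i; unfold sh; rw [h i]; ring⟩
  · rintro ⟨e, he, rfl⟩
    exact unif_sh he c

lemma unif_iff' {m : ℕ} (x c : Col m) : Unif x c ↔ ∃ e : ℤ, (e = 1 ∨ e = -1) ∧ c = sh x e := by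
  constructor
  · rintro (h | h)
    · exact ⟨1, Or.inl rfl, by funext i; unfold sh; rw [h i]⟩
    · exact ⟨-1, Or.inr rfl, by funext i; unfold sh; rw [h i]; ring⟩
  · rintro ⟨e, he, rfl⟩
    exact unif_sh' he x

/-- Shift invariance of the counting function. -/
lemma nexts_sh {m : ℕ} (c : Col m) (a : ℤ) : nexts (sh c a) = (nexts c).image fun y => sh y a := by
  ext y
  rw [Finset.mem_image]
  constructor
  · intro h
    rw [mem_nexts] at h
    refine ⟨sh y (-a), ?_, by rw [sh_sh]; simp [sh_zero]⟩
    rw [mem_nexts]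
    refine ⟨fun i => ?_, colOK_sh _ _ h.2⟩
    have := h.1 i
    unfold sh at this ⊢
    omega
  · rintro ⟨z, hz, rfl⟩
    rw [mem_nexts] at hz ⊢
    refine ⟨fun i => ?_, colOK_sh _ _ hz.2⟩
    have := hz.1 i
    unfold sh at this ⊢
    omega

lemma sh_injective {m : ℕ} (a : ℤ) : Function.Injective (fun y : Col m => sh y a) := by
  intro y z h
  have : sh (sh y a) (-a) = sh (sh z a) (-a) := congrArg (fun w => sh w (-a)) h
  rw [sh_sh, sh_sh] at this
  simpa [sh_zero] using this

lemma cost_shift {m : ℕ} (p : Option (Col m)) (c : Col m) (q : Option (Col m)) (a : ℤ) :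
    cost (p.map fun y => sh y a) (sh c a) (q.map fun y => sh y a) = cost p c q := by
  unfold cost Ext
  congr 1
  ext i
  simp only [Finset.mem_filter, Finset.mem_univ, true_and, Option.mem_map,
    forall_exists_index, and_imp]
  have key : ∀ e : ℤ, ∀ r : Option (Col m),
      (∀ (x z : Col m), z ∈ r → sh z a = x → x i = sh c a i + e) ↔
      (∀ x ∈ r, x i = c i + e) := by
    intro e r
    constructor
    · intro h x hx
      have := h _ x hx rfl
      unfold sh at this
      linarith
    · intro h x z hz hx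
      subst hx
      have := h z hz
      unfold sh
      linarith
  have key2 : ∀ e : ℤ, (∀ j, VAdj i j → sh c a j = sh c a i + e) ↔
      (∀ j, VAdj i j → c j = c i + e) := by
    intro e
    constructor
    · intro h j hj; have := h j hj; unfold sh at this; linarith
    · intro h j hj; have := h j hj; unfold sh; linarith
  rw [key, key, key, key, key2, key2]

lemma cnt_shift {m : ℕ} (n : ℕ) (p : Option (Col m)) (c : Col m) (k : ℕ) (a : ℤ) :
    cnt n (p.map fun y => sh y a) (sh c a) k = cnt n p c k := by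
  induction n generalizing p c k with
  | zero =>
    unfold cnt
    have := cost_shift p c none a
    simp only [Option.map_none] at this
    rw [this]
  | succ n ih =>
    unfold cnt
    rw [nexts_sh, Finset.sum_image (fun y _ z _ h => sh_injective a h)]
    apply Finset.sum_congr rfl
    intro y _
    have h1 := cost_shift p c (some y) a
    simp only [Option.map_some] at h1
    rw [h1]
    have h2 := ih (some c) y (k - cost p c (some y))
    simp only [Option.map_some] at h2
    rw [h2]

end Pool.Agent.Work.MP_562107_co
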