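import Mathlib

namespace Pool.Agent.Work.MP_562107_co

/-- Two cells of the `m × n` grid are adjacent if they differ by `1` in exactly one coordinate. -/
def GridAdj {m n : ℕ} (u v : Fin m × Fin n) : Prop :=
  (u.1 = v.1 ∧ (u.2.val + 1 = v.2.val ∨ v.2.val + 1 = u.2.val)) ∨
  (u.2 = v.2 ∧ (u.1.val + 1 = v.1.val ∨ v.1.val + 1 = u.1.val))

/-- Height functions on the `m × n` grid, normalised to be `0` at the first cell. -/
def IsHeight {m n : ℕ} (h : Fin m × Fin n → ℤ) : Prop :=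
  (∀ u v, GridAdj u v → |h u - h v| = 1) ∧
    ∀ u : Fin m × Fin n, u.1.val = 0 → u.2.val = 0 → h u = 0

/-- Strict local minimum. -/
def IsStrictMin {m n : ℕ} (h : Fin m × Fin n → ℤ) (v : Fin m × Fin n) : Prop :=
  ∀ u, GridAdj v u → h u = h v + 1

/-- Strict local maximum. -/
def IsStrictMax {m n : ℕ} (h : Fin m × Fin n → ℤ) (v : Fin m × Fin n) : Prop :=
  ∀ u, GridAdj v u → h u = h v - 1

/-- The number of extrema. -/
noncomputable def numExtrema {m n : ℕ} (h : Fin m × Fin n → ℤ) : ℕ :=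
  Set.ncard {v | IsStrictMin h v ∨ IsStrictMax h v}

/-- The number of height functions on the `m × n` grid with exactly `d` extrema. -/
noncomputable def E (d m n : ℕ) : ℕ :=
  Set.ncard {h : Fin m × Fin n → ℤ | IsHeight h ∧ numExtrema h = d}

/-- The series `∑_{n ≥ 2} E_d(m,n) z^n`. -/
noncomputable def F (d m : ℕ) : PowerSeries ℚ :=
  PowerSeries.mk fun n => if 2 ≤ n then (E d m n : ℚ) else 0

/-- `c 1, ..., c (d-1)` are the coefficients of the principal part of `F_{d,m}` at `z = 1`: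
`F_{d,m} = c_1/(1-z)^(d-1) + c_2/(1-z)^(d-2) + ... + c_(d-1)/(1-z) + R(z)`, `R` a polynomial. -/
def IsPrincipalPart (d m : ℕ) (c : ℕ → ℚ) : Prop :=
  ∃ R : Polynomial ℚ, F d m =
    (∑ i ∈ Finset.Icc 1 (d - 1), PowerSeries.C (c i) * ((1 - PowerSeries.X)⁻¹) ^ (d - i)) +
      (R : PowerSeries ℚ)

end Pool.Agent.Work.MP_562107_co
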