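import Pool.Agent.Work.MP_562107_co.Costs

namespace Pool.Agent.Work.MP_562107_co

open Classical

/-- Column given by a function on the naturals. -/
def ofN (m : ℕ) (f : ℕ → ℤ) : Col m := fun i => f i.val

lemma vert_iff {m : ℕ} (f : ℕ → ℤ) (i : Fin m) (e : ℤ) :
    (∀ j, VAdj i j → ofN m f j = ofN m f i + e) ↔
      ((i.val + 1 < m → f (i.val + 1) = f i.val + e) ∧
        (1 ≤ i.val → f (i.val - 1) = f i.val + e)) := by
  constructor
  · intro h
    refine ⟨fun h1 => ?_, fun h1 => ?_⟩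
    · exact h ⟨i.val + 1, h1⟩ (Or.inl rfl)
    · exact h ⟨i.val - 1, by omega⟩ (Or.inr (by simp; omega))
  · rintro ⟨h1, h2⟩ j (hj | hj)
    · unfold ofN
      rw [← hj]; exact h1 (by omega)
    · unfold ofN
      have : j.val = i.val - 1 := by omega
      rw [this]; exact h2 (by omega)

lemma ext_iff_N {m : ℕ} (f g h : ℕ → ℤ) (i : Fin m) (e : ℤ) :
    Ext e (some (ofN m g)) (ofN m f) (some (ofN m h)) i ↔
      (g i.val = f i.val + e ∧ h i.val = f i.val + e ∧
        (i.val + 1 < m → f (i.val + 1) = f i.val + e) ∧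
        (1 ≤ i.val → f (i.val - 1) = f i.val + e)) := by
  unfold Ext
  rw [vert_iff]
  constructor
  · rintro ⟨h1, h2, h3⟩
    exact ⟨h1 _ rfl, h2 _ rfl, h3⟩
  · rintro ⟨h1, h2, h3⟩
    refine ⟨?_, ?_, h3⟩
    · intro x hx
      rw [Option.mem_some_iff] at hx; subst hx; exact h1
    · intro x hx
      rw [Option.mem_some_iff] at hx; subst hx; exact h2

lemma ofN_colOK {m : ℕ} (f : ℕ → ℤ) (h : ∀ k, k + 1 < m → (f (k + 1) = f k + 1 ∨ f (k + 1) = f k - 1)) :
    ColOK (ofN m f) := by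
  rintro i j (hij | hij)
  · unfold ofN
    rw [← hij]
    exact h i.val (by omega)
  · unfold ofN
    have := h j.val (by omega)
    rw [hij] at this
    omega

/-- Monotone column. -/
def lin (m : ℕ) (δ a : ℤ) : Col m := ofN m fun i => a + δ * i

/-- Neighbour of the monotone column with the step changing sign at row `t`. -/
def brk (m : ℕ) (δ a : ℤ) (t : ℕ) : Col m := ofN m fun i => a + δ * i + if i < t then δ else -δ

lemma lin_colOK (m : ℕ) {δ : ℤ} (hδ : δ = 1 ∨ δ = -1) (a : ℤ) : ColOK (lin m δ a) := by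
  apply ofN_colOK
  intro k _
  rcases hδ with rfl | rfl <;> push_cast <;> omega

lemma brk_colOK (m : ℕ) {δ : ℤ} (hδ : δ = 1 ∨ δ = -1) (a : ℤ) (t : ℕ) :
    ColOK (brk m δ a t) := by
  apply ofN_colOK
  intro k _
  rcases hδ with rfl | rfl <;> push_cast <;> split_ifs <;> omega

lemma brk_near (m : ℕ) {δ : ℤ} (hδ : δ = 1 ∨ δ = -1) (a : ℤ) (t : ℕ) :
    Near (lin m δ a) (brk m δ a t) := by
  refine ⟨fun i => ?_, brk_colOK m hδ a t⟩
  unfold lin brk ofN
  rcases hδ with rfl | rfl <;> dsimp only <;> split_ifs <;> omega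

lemma near_lin (m : ℕ) {δ : ℤ} (hδ : δ = 1 ∨ δ = -1) (a : ℤ) (c' : Col m)
    (h : Near (lin m δ a) c') : ∃ t, t ≤ m ∧ c' = brk m δ a t := by
  obtain ⟨h1, h2⟩ := h
  -- once the step is -δ it stays so
  have hstep : ∀ k : ℕ, ∀ hk : k + 1 < m, c' ⟨k, by omega⟩ = a + δ * k - δ →
      c' ⟨k + 1, hk⟩ = a + δ * (k + 1) - δ := by
    intro k hk h3
    have h4 := h2 ⟨k, by omega⟩ ⟨k + 1, hk⟩ (Or.inl rfl)
    have h5 := h1 ⟨k + 1, hk⟩
    unfold lin ofN at h5
    push_cast at h5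
    rcases hδ with rfl | rfl <;> omega
  have hex : ∃ t : ℕ, t = m ∨ ∃ h : t < m, c' ⟨t, h⟩ = a + δ * t - δ := ⟨m, Or.inl rfl⟩
  set t := Nat.find hex with ht
  have htm : t ≤ m := Nat.find_min' hex (Or.inl rfl)
  refine ⟨t, htm, ?_⟩
  funext i
  unfold brk ofN
  dsimp only
  by_cases hit : i.val < t
  · rw [if_pos hit]
    have h3 := Nat.find_min hex hit
    push Not at h3
    have h4 := h3.2 i.2
    have h5 := h1 i
    simp only [Fin.eta] at h4
    unfold lin ofN at h5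
    dsimp only at h5
    rcases hδ with rfl | rfl <;> omega
  · rw [if_neg hit]
    have h3 := Nat.find_spec hex
    rw [← ht] at h3
    rcases h3 with h3 | ⟨h3, h4⟩
    · exact absurd i.2 (by omega)
    · have h5 : ∀ r : ℕ, ∀ hr : t + r < m, c' ⟨t + r, hr⟩ = a + δ * (t + r : ℕ) - δ := by
        intro r
        induction r with
        | zero => intro _; exact h4
        | succ r ih =>
          intro hr
          have := hstep (t + r) (by omega) (ih (by omega))
          refine Eq.trans this ?_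
          push_cast
          ring
      have h6 := h5 (i.val - t) (by omega)
      have h7 : (⟨t + (i.val - t), by omega⟩ : Fin m) = i := Fin.ext (by simp; omega)
      rw [h7] at h6
      rw [h6]
      have h8 : t + (i.val - t) = i.val := by omega
      rw [h8]; ring

lemma mem_nexts_lin (m : ℕ) {δ : ℤ} (hδ : δ = 1 ∨ δ = -1) (a : ℤ) (c' : Col m) :
    c' ∈ nexts (lin m δ a) ↔ ∃ t, t ≤ m ∧ c' = brk m δ a t := by
  rw [← near_iff]
  constructor
  · exact near_lin m hδ a c'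
  · rintro ⟨t, _, rfl⟩; exact brk_near m hδ a t

lemma brk_inj (m : ℕ) {δ : ℤ} (hδ : δ = 1 ∨ δ = -1) (a : ℤ) {t t' : ℕ} (ht : t ≤ m)
    (ht' : t' ≤ m) (h : brk m δ a t = brk m δ a t') : t = t' := by
  by_contra hne
  wlog hlt : t < t' generalizing t t'
  · exact this ht' ht h.symm (Ne.symm hne) (by omega)
  have h1 := congrFun h ⟨t, by omega⟩
  unfold brk ofN at h1
  simp only [lt_irrefl, if_false, hlt, if_true] at h1
  rcases hδ with rfl | rfl <;> omega

lemma sum_nexts_lin (m : ℕ) {δ : ℤ} (hδ : δ = 1 ∨ δ = -1) (a : ℤ) (f : Col m → ℚ) :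
    ∑ c' ∈ nexts (lin m δ a), f c' = ∑ t ∈ Finset.range (m + 1), f (brk m δ a t) := by
  have : nexts (lin m δ a) = (Finset.range (m + 1)).image (brk m δ a) := by
    ext c'
    rw [mem_nexts_lin m hδ, Finset.mem_image]
    constructor
    · rintro ⟨t, h1, h2⟩; exact ⟨t, Finset.mem_range.2 (by omega), h2.symm⟩
    · rintro ⟨t, h1, h2⟩
      rw [Finset.mem_range] at h1
      exact ⟨t, by omega, h2.symm⟩
  rw [this, Finset.sum_image]
  intro t ht t' ht' h
  rw [Finset.mem_coe, Finset.mem_range] at ht ht'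
  exact brk_inj m hδ a (by omega) (by omega) h

lemma unif_brk_iff (m : ℕ) (hm : 1 ≤ m) {δ : ℤ} (hδ : δ = 1 ∨ δ = -1) (a : ℤ) {t : ℕ}
    (ht : t ≤ m) : Unif (lin m δ a) (brk m δ a t) ↔ (t = 0 ∨ t = m) := by
  constructor
  · intro h
    by_contra hcon
    push Not at hcon
    have hpos : 0 < t := by omega
    rcases h with h | h
    · have h1 := h ⟨0, by omega⟩
      have h2 := h ⟨t, by omega⟩
      unfold lin brk ofN at h1 h2
      simp only [hpos, if_true, lt_irrefl, if_false] at h1 h2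
      rcases hδ with rfl | rfl <;> omega
    · have h1 := h ⟨0, by omega⟩
      have h2 := h ⟨t, by omega⟩
      unfold lin brk ofN at h1 h2
      simp only [hpos, if_true, lt_irrefl, if_false] at h1 h2
      rcases hδ with rfl | rfl <;> omega
  · rintro (rfl | rfl)
    · rcases hδ with rfl | rfl
      · right; intro i; unfold lin brk ofN; simp; ring
      · left; intro i; unfold lin brk ofN; simp
    · rcases hδ with rfl | rfl
      · left; intro i; unfold lin brk ofN; simp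
      · right; intro i; unfold lin brk ofN; simp; ring

lemma vt_lin (m : ℕ) (hm : 2 ≤ m) {δ e : ℤ} (hδ : δ = 1 ∨ δ = -1) (he : e = 1 ∨ e = -1)
    (a : ℤ) : vt e (lin m δ a) = 1 := by
  unfold vt lin
  rw [Finset.card_eq_one]
  refine ⟨if e = δ then ⟨0, by omega⟩ else ⟨m - 1, by omega⟩, ?_⟩
  ext i
  rw [Finset.mem_filter, Finset.mem_singleton, vert_iff]
  have hi := i.2
  rcases hδ with rfl | rfl <;> rcases he with rfl | rfl <;>
    simp [Fin.ext_iff] <;> omega

lemma vt_brk_neg_one (m : ℕ) (hm : 2 ≤ m) {δ : ℤ} (hδ : δ = 1 ∨ δ = -1) (a : ℤ) :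
    vt (-δ) (brk m δ a (m - 1)) = 1 := by
  unfold vt brk
  rw [Finset.card_eq_one]
  refine ⟨⟨m - 2, by omega⟩, ?_⟩
  ext i
  rw [Finset.mem_filter, Finset.mem_singleton, vert_iff, Fin.ext_iff]
  have hi := i.2
  simp only [Finset.mem_univ, true_and]
  rcases hδ with rfl | rfl <;> push_cast <;> split_ifs <;> omega

lemma vt_brk_neg_ne (m : ℕ) (hm : 2 ≤ m) {δ : ℤ} (hδ : δ = 1 ∨ δ = -1) (a : ℤ) {t : ℕ}
    (h1 : 1 ≤ t) (h2 : t + 1 < m) : vt (-δ) (brk m δ a t) ≠ 1 := by
  intro hcon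
  unfold vt brk at hcon
  rw [Finset.card_eq_one] at hcon
  obtain ⟨x, hx⟩ := hcon
  have k1 : (⟨t - 1, by omega⟩ : Fin m) = x := by
    rw [← Finset.mem_singleton, ← hx, Finset.mem_filter, vert_iff]
    refine ⟨Finset.mem_univ _, ?_, ?_⟩
    · intro _; rcases hδ with rfl | rfl <;> dsimp only <;> push_cast <;> split_ifs <;> omega
    · intro h; dsimp only at h; rcases hδ with rfl | rfl <;> dsimp only <;> push_cast <;> split_ifs <;> omega
  have k2 : (⟨m - 1, by omega⟩ : Fin m) = x := by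
    rw [← Finset.mem_singleton, ← hx, Finset.mem_filter, vert_iff]
    refine ⟨Finset.mem_univ _, ?_, ?_⟩
    · intro h; simp only at h; omega
    · intro _; rcases hδ with rfl | rfl <;> dsimp only <;> push_cast <;> split_ifs <;> omega
  have := congrArg Fin.val (k1.trans k2.symm)
  simp only at this
  omega

lemma vt_brk_pos_one (m : ℕ) (hm : 2 ≤ m) {δ : ℤ} (hδ : δ = 1 ∨ δ = -1) (a : ℤ) :
    vt δ (brk m δ a 1) = 1 := by
  unfold vt brk
  rw [Finset.card_eq_one]
  refine ⟨⟨1, by omega⟩, ?_⟩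
  ext i
  rw [Finset.mem_filter, Finset.mem_singleton, vert_iff, Fin.ext_iff]
  have hi := i.2
  simp only [Finset.mem_univ, true_and]
  rcases hδ with rfl | rfl <;> push_cast <;> split_ifs <;> omega

lemma vt_brk_pos_ne (m : ℕ) (hm : 2 ≤ m) {δ : ℤ} (hδ : δ = 1 ∨ δ = -1) (a : ℤ) {t : ℕ}
    (h1 : 2 ≤ t) (h2 : t < m) : vt δ (brk m δ a t) ≠ 1 := by
  intro hcon
  unfold vt brk at hcon
  rw [Finset.card_eq_one] at hcon
  obtain ⟨x, hx⟩ := hcon
  have k1 : (⟨t, by omega⟩ : Fin m) = x := by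
    rw [← Finset.mem_singleton, ← hx, Finset.mem_filter, vert_iff]
    refine ⟨Finset.mem_univ _, ?_, ?_⟩
    · intro _; rcases hδ with rfl | rfl <;> dsimp only <;> push_cast <;> split_ifs <;> omega
    · intro _; rcases hδ with rfl | rfl <;> dsimp only <;> push_cast <;> split_ifs <;> omega
  have k2 : (⟨0, by omega⟩ : Fin m) = x := by
    rw [← Finset.mem_singleton, ← hx, Finset.mem_filter, vert_iff]
    refine ⟨Finset.mem_univ _, ?_, ?_⟩
    · intro _; rcases hδ with rfl | rfl <;> dsimp only <;> push_cast <;> split_ifs <;> omega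
    · intro h; simp only at h; omega
  have := congrArg Fin.val (k1.trans k2.symm)
  simp only at this
  omega

lemma sh_ofN (m : ℕ) (f : ℕ → ℤ) (e : ℤ) : sh (ofN m f) e = ofN m fun i => f i + e := rfl

lemma cost_lin_brk (m : ℕ) (hm : 2 ≤ m) {δ e : ℤ} (hδ : δ = 1 ∨ δ = -1)
    (he : e = 1 ∨ e = -1) (a : ℤ) {t : ℕ} (h1 : 1 ≤ t) (h2 : t < m) :
    cost (some (sh (lin m δ a) e)) (lin m δ a) (some (brk m δ a t)) = 1 := by
  unfold cost
  rw [Finset.card_eq_one]
  refine ⟨if e = δ then ⟨0, by omega⟩ else ⟨m - 1, by omega⟩, ?_⟩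
  ext i
  rw [Finset.mem_filter, Finset.mem_singleton]
  unfold lin brk
  rw [sh_ofN, ext_iff_N, ext_iff_N]
  have hi := i.2
  rcases hδ with rfl | rfl <;> rcases he with rfl | rfl <;>
    simp [Fin.ext_iff] <;> omega

lemma cost_brk_sh (m : ℕ) (hm : 2 ≤ m) {δ e : ℤ} (hδ : δ = 1 ∨ δ = -1)
    (he : e = 1 ∨ e = -1) (a : ℤ) {t : ℕ} (h1 : 1 ≤ t) (h2 : t < m) :
    cost (some (lin m δ a)) (brk m δ a t) (some (sh (brk m δ a t) e)) = 1 := by
  unfold cost
  rw [Finset.card_eq_one]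
  refine ⟨if e = δ then ⟨t, by omega⟩ else ⟨t - 1, by omega⟩, ?_⟩
  ext i
  rw [Finset.mem_filter, Finset.mem_singleton]
  unfold lin brk
  rw [sh_ofN, ext_iff_N, ext_iff_N]
  have hi := i.2
  rcases hδ with rfl | rfl <;> rcases he with rfl | rfl <;>
    simp [Fin.ext_iff] <;> omega

end Pool.Agent.Work.MP_562107_co
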