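import Pool.Agent.Work.MP_562107_co.Series
import Pool.Agent.Work.MP_562107_co.Lin

namespace Pool.Agent.Work.MP_562107_co

open Classical

/-- Columns with one vertical extremum of each type. -/
def Mono {m : ℕ} (c : Col m) : Prop := vt 1 c = 1 ∧ vt (-1) c = 1

lemma mono_sh {m : ℕ} (c : Col m) (a : ℤ) : Mono (sh c a) ↔ Mono c := by
  unfold Mono; rw [vt_sh, vt_sh]

lemma mono_iff {m : ℕ} (c : Col m) {e : ℤ} (he : e = 1 ∨ e = -1) :
    Mono c ↔ (vt e c = 1 ∧ vt (-e) c = 1) := by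
  unfold Mono
  rcases he with rfl | rfl
  · rfl
  · simp only [neg_neg]; tauto

lemma mono_lin (m : ℕ) (hm : 2 ≤ m) {δ : ℤ} (hδ : δ = 1 ∨ δ = -1) (a : ℤ) :
    Mono (lin m δ a) :=
  ⟨vt_lin m hm hδ (Or.inl rfl) a, vt_lin m hm hδ (Or.inr rfl) a⟩

lemma vext_exists {m : ℕ} {e : ℤ} (he : e = 1 ∨ e = -1) {c : Col m} (hc : ColOK c)
    (lo hi : ℕ) (hlh : lo ≤ hi) (hhi : hi < m)
    (h1 : lo = 0 ∨ (lo + 1 ≤ hi ∧ ∀ i j : Fin m, i.val = lo → j.val = lo + 1 → c j = c i - e))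
    (h2 : hi + 1 = m ∨ (lo + 1 ≤ hi ∧ ∀ i j : Fin m, i.val + 1 = hi → j.val = hi →
      c i = c j - e)) :
    ∃ i : Fin m, lo ≤ i.val ∧ i.val ≤ hi ∧ (i.val = lo → lo = 0) ∧ (i.val = hi → hi + 1 = m) ∧
      ∀ j, VAdj i j → c j = c i + e := by
  set S := Finset.univ.filter fun i : Fin m => lo ≤ i.val ∧ i.val ≤ hi with hS
  have hSne : S.Nonempty := ⟨⟨lo, by omega⟩, by rw [hS, Finset.mem_filter]; simp; omega⟩
  obtain ⟨i, hiS, hmax⟩ := Finset.exists_max_image S (fun i => -e * c i) hSne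
  have hi' : lo ≤ i.val ∧ i.val ≤ hi := by
    rw [hS, Finset.mem_filter] at hiS; exact hiS.2
  have hmax' : ∀ j : Fin m, lo ≤ j.val → j.val ≤ hi → -e * c j ≤ -e * c i := by
    intro j h3 h4
    exact hmax j (by rw [hS, Finset.mem_filter]; exact ⟨Finset.mem_univ _, h3, h4⟩)
  have hlo : i.val = lo → lo = 0 := by
    intro h
    rcases h1 with h1 | ⟨h1, h3⟩
    · exact h1
    · exfalso
      have h4 := h3 i ⟨lo + 1, by omega⟩ h rfl
      have h5 := hmax' ⟨lo + 1, by omega⟩ (by simp) (by simpa using h1)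
      rw [h4] at h5
      rcases he with rfl | rfl <;> omega
  have hhi' : i.val = hi → hi + 1 = m := by
    intro h
    rcases h2 with h2 | ⟨h2, h3⟩
    · exact h2
    · exfalso
      have h4 := h3 ⟨hi - 1, by omega⟩ i (by simp; omega) h
      have h5 := hmax' ⟨hi - 1, by omega⟩ (by simp; omega) (by simp)
      rw [h4] at h5
      rcases he with rfl | rfl <;> omega
  refine ⟨i, hi'.1, hi'.2, hlo, hhi', ?_⟩
  intro j hj
  have hcj := hc i j hj
  have hjS : lo ≤ j.val ∧ j.val ≤ hi := by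
    have hjm := j.2
    rcases hj with hj | hj
    · refine ⟨by omega, ?_⟩
      by_contra hcon
      have := hhi' (by omega)
      omega
    · refine ⟨?_, by omega⟩
      by_contra hcon
      have := hlo (by omega)
      omega
  have := hmax' j hjS.1 hjS.2
  rcases he with rfl | rfl <;> omega

lemma vt_ne_one {m : ℕ} {e : ℤ} {c : Col m} {i j : Fin m} (hij : i ≠ j)
    (hi : ∀ k, VAdj i k → c k = c i + e) (hj : ∀ k, VAdj j k → c k = c j + e) :
    vt e c ≠ 1 := by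
  intro hcon
  unfold vt at hcon
  rw [Finset.card_eq_one] at hcon
  obtain ⟨x, hx⟩ := hcon
  have k1 : i = x := by
    rw [← Finset.mem_singleton, ← hx, Finset.mem_filter]; exact ⟨Finset.mem_univ _, hi⟩
  have k2 : j = x := by
    rw [← Finset.mem_singleton, ← hx, Finset.mem_filter]; exact ⟨Finset.mem_univ _, hj⟩
  exact hij (k1.trans k2.symm)

lemma lin_of_mono {m : ℕ} (hm : 2 ≤ m) {c : Col m} (hc : ColOK c) (h : Mono c) :
    ∃ δ : ℤ, (δ = 1 ∨ δ = -1) ∧ c = lin m δ (c ⟨0, by omega⟩) := by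
  have hfin : ∀ δ : ℤ, (∀ k : ℕ, ∀ hk : k + 1 < m, c ⟨k + 1, hk⟩ = c ⟨k, by omega⟩ + δ) →
      c = lin m δ (c ⟨0, by omega⟩) := by
    intro δ hall
    have : ∀ k : ℕ, ∀ hk : k < m, c ⟨k, hk⟩ = c ⟨0, by omega⟩ + δ * k := by
      intro k
      induction k with
      | zero => intro _; simp
      | succ k ih =>
        intro hk
        rw [hall k hk, ih (by omega)]; push_cast; ring
    funext i
    exact this i.val i.2
  by_cases hup : ∀ k : ℕ, ∀ hk : k + 1 < m, c ⟨k + 1, hk⟩ = c ⟨k, by omega⟩ + 1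
  · exact ⟨1, Or.inl rfl, hfin 1 hup⟩
  by_cases hdn : ∀ k : ℕ, ∀ hk : k + 1 < m, c ⟨k + 1, hk⟩ = c ⟨k, by omega⟩ + (-1)
  · exact ⟨-1, Or.inr rfl, hfin (-1) hdn⟩
  exfalso
  push Not at hup hdn
  obtain ⟨a, ha, ha'⟩ := hup
  obtain ⟨b, hb, hb'⟩ := hdn
  have h1 := hc ⟨a, by omega⟩ ⟨a + 1, ha⟩ (Or.inl rfl)
  have h2 := hc ⟨b, by omega⟩ ⟨b + 1, hb⟩ (Or.inl rfl)
  have ha2 : c ⟨a + 1, ha⟩ = c ⟨a, by omega⟩ - 1 := by omega
  have hb2 : c ⟨b + 1, hb⟩ = c ⟨b, by omega⟩ + 1 := by omega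
  have hab : a ≠ b := by
    rintro rfl
    omega
  have fa : ∀ i : Fin m, i.val = a → c i = c ⟨a, by omega⟩ := fun i hi => congrArg c (Fin.ext hi)
  have fa1 : ∀ i : Fin m, i.val = a + 1 → c i = c ⟨a + 1, ha⟩ :=
    fun i hi => congrArg c (Fin.ext hi)
  have fb : ∀ i : Fin m, i.val = b → c i = c ⟨b, by omega⟩ := fun i hi => congrArg c (Fin.ext hi)
  have fb1 : ∀ i : Fin m, i.val = b + 1 → c i = c ⟨b + 1, hb⟩ :=
    fun i hi => congrArg c (Fin.ext hi)
  rcases Nat.lt_or_gt_of_ne hab with hlt | hlt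
  · -- descent first: two peaks
    obtain ⟨i, i1, i2, i3, i4, i5⟩ := vext_exists (e := -1) (Or.inr rfl) hc 0 (a + 1) (by omega)
      (by omega) (Or.inl rfl) (Or.inr ⟨by omega, fun i j hi hj => by
        rw [fa i (by omega), fa1 j hj]; omega⟩)
    obtain ⟨j, j1, j2, j3, j4, j5⟩ := vext_exists (e := -1) (Or.inr rfl) hc b (m - 1) (by omega)
      (by omega) (Or.inr ⟨by omega, fun i j hi hj => by
        rw [fb i hi, fb1 j hj]; omega⟩) (Or.inl (by omega))
    refine vt_ne_one (i := i) (j := j) ?_ i5 j5 h.2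
    rintro rfl
    have : i.val = b → b = 0 := j3
    have h6 : i.val = a + 1 → a + 1 + 1 = m := i4
    omega
  · -- ascent first: two valleys
    obtain ⟨i, i1, i2, i3, i4, i5⟩ := vext_exists (e := 1) (Or.inl rfl) hc 0 (b + 1) (by omega)
      (by omega) (Or.inl rfl) (Or.inr ⟨by omega, fun i j hi hj => by
        rw [fb i (by omega), fb1 j hj]; omega⟩)
    obtain ⟨j, j1, j2, j3, j4, j5⟩ := vext_exists (e := 1) (Or.inl rfl) hc a (m - 1) (by omega)
      (by omega) (Or.inr ⟨by omega, fun i j hi hj => by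
        rw [fa i hi, fa1 j hj]; exact ha2⟩) (Or.inl (by omega))
    refine vt_ne_one (i := i) (j := j) ?_ i5 j5 h.1
    rintro rfl
    have : i.val = a → a = 0 := j3
    have h6 : i.val = b + 1 → b + 1 + 1 = m := i4
    omega

/-! ### Values of `al` -/

lemma al_nonunif {m : ℕ} (k : ℕ) {x c : Col m} (h : ¬ Unif x c) : al k x c = 0 := by
  rcases k with _ | k
  · rfl
  · rw [al, if_neg h]

lemma sh_ne {m : ℕ} (hm : 1 ≤ m) (c : Col m) {e : ℤ} (he : e = 1 ∨ e = -1) :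
    sh c e ≠ sh c (-e) := by
  intro h
  have := congrFun h ⟨0, by omega⟩
  unfold sh at this
  rcases he with rfl | rfl <;> omega

lemma unif_cases {m : ℕ} {c c' : Col m} {e : ℤ} (he : e = 1 ∨ e = -1) (h : Unif c c') :
    c' = sh c e ∨ c' = sh c (-e) := by
  obtain ⟨e', he', rfl⟩ := (unif_iff' c c').1 h
  rcases he with rfl | rfl <;> rcases he' with rfl | rfl <;> simp

lemma filter_cont {m : ℕ} (hm : 1 ≤ m) {c : Col m} (hc : ColOK c) {e : ℤ}
    (he : e = 1 ∨ e = -1) :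
    (nexts c).filter (fun c' => c' ≠ cont (sh c (-e)) c) =
      insert (sh c (-e)) ((nexts c).filter fun c' => ¬ Unif c c') := by
  have he' : -e = 1 ∨ -e = -1 := by rcases he with rfl | rfl <;> simp
  rw [cont_sh]
  ext c'
  rw [Finset.mem_filter, Finset.mem_insert, Finset.mem_filter]
  constructor
  · rintro ⟨h1, h2⟩
    by_cases hu : Unif c c'
    · rcases unif_cases he hu with h | h
      · exact absurd h h2
      · exact Or.inl h
    · exact Or.inr ⟨h1, hu⟩
  · rintro (h | ⟨h1, h2⟩)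
    · subst h
      exact ⟨(near_iff _ _).1 (near_sh he' hc), (sh_ne hm c he).symm⟩
    · refine ⟨h1, ?_⟩
      rintro rfl
      exact h2 (unif_sh' he c)

lemma not_mem_filter {m : ℕ} {c : Col m} {e : ℤ} (he : e = 1 ∨ e = -1) :
    sh c (-e) ∉ (nexts c).filter fun c' => ¬ Unif c c' := by
  have he' : -e = 1 ∨ -e = -1 := by rcases he with rfl | rfl <;> simp
  rw [Finset.mem_filter]
  rintro ⟨_, h⟩
  exact h (unif_sh' he' c)

lemma al_succ {m : ℕ} (hm : 2 ≤ m) {c : Col m} (hc : ColOK c) {e : ℤ} (he : e = 1 ∨ e = -1)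
    (k : ℕ) : al (k + 1) (sh c (-e)) c = (if k = 0 ∧ vt (-e) c = 1 then 1 else 0) +
      (if vt (-e) c = 1 then al k c (sh c (-e)) else 0) := by
  have he' : -e = 1 ∨ -e = -1 := by rcases he with rfl | rfl <;> simp
  rw [al, if_pos (unif_sh he c), cost_sh_none he', filter_cont (by omega) hc he,
    Finset.sum_insert (not_mem_filter he), cost_sh_sh he']
  rw [Finset.sum_eq_zero, add_zero]
  intro c' hc'
  rw [Finset.mem_filter] at hc'
  rw [al_nonunif k hc'.2]
  simp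

lemma al_one {m : ℕ} (hm : 2 ≤ m) {c : Col m} (hc : ColOK c) {e : ℤ} (he : e = 1 ∨ e = -1) :
    al 1 (sh c (-e)) c = if vt (-e) c = 1 then 1 else 0 := by
  rw [al_succ hm hc he 0]
  simp [al]

lemma al_two {m : ℕ} (hm : 2 ≤ m) (k : ℕ) : ∀ {c : Col m} (_ : ColOK c) {e : ℤ}
    (_ : e = 1 ∨ e = -1), al (k + 2) (sh c (-e)) c = if Mono c then 1 else 0 := by
  induction k with
  | zero =>
    intro c hc e he
    have he' : -e = 1 ∨ -e = -1 := by rcases he with rfl | rfl <;> simp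
    rw [al_succ hm hc he 1]
    have h1 := al_one hm (colOK_sh c (-e) hc) he'
    rw [sh_sh, neg_neg, neg_add_cancel, sh_zero, vt_sh] at h1
    rw [h1, mono_iff c he]
    by_cases h2 : vt (-e) c = 1 <;> by_cases h3 : vt e c = 1 <;> simp [h2, h3]
  | succ k ih =>
    intro c hc e he
    have he' : -e = 1 ∨ -e = -1 := by rcases he with rfl | rfl <;> simp
    rw [al_succ hm hc he (k + 2)]
    have h1 := ih (colOK_sh c (-e) hc) he'
    rw [sh_sh, neg_neg, neg_add_cancel, sh_zero, mono_sh] at h1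
    rw [h1]
    by_cases h2 : Mono c
    · have h3 := ((mono_iff c he).1 h2).2
      simp [h2, h3]
    · simp [h2]

/-- Version with the uniform step after the column. -/
lemma al_two' {m : ℕ} (hm : 2 ≤ m) (k : ℕ) {c : Col m} (hc : ColOK c) {e : ℤ}
    (he : e = 1 ∨ e = -1) : al (k + 2) c (sh c e) = if Mono c then 1 else 0 := by
  have h1 := al_two hm k (colOK_sh c e hc) he
  rw [sh_sh, add_neg_cancel, sh_zero, mono_sh] at h1
  exact h1

lemma al_one' {m : ℕ} (hm : 2 ≤ m) {c : Col m} (hc : ColOK c) {e : ℤ}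
    (he : e = 1 ∨ e = -1) : al 1 c (sh c e) = if vt (-e) c = 1 then 1 else 0 := by
  have h1 := al_one hm (colOK_sh c e hc) he
  rw [sh_sh, add_neg_cancel, sh_zero, vt_sh] at h1
  exact h1

/-! ### Values of `be` -/

lemma sum_nexts_two {m : ℕ} (hm : 1 ≤ m) {c : Col m} (hc : ColOK c) (f : Col m → ℚ)
    (h : ∀ c' ∈ nexts c, ¬ Unif c c' → f c' = 0) :
    ∑ c' ∈ nexts c, f c' = f (sh c 1) + f (sh c (-1)) := by
  have h1 : sh c 1 ∈ nexts c := (near_iff _ _).1 (near_sh (Or.inl rfl) hc)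
  have h2 : sh c (-1) ∈ nexts c := (near_iff _ _).1 (near_sh (Or.inr rfl) hc)
  rw [← Finset.sum_subset (s₁ := {sh c 1, sh c (-1)})]
  · rw [Finset.sum_pair (sh_ne hm c (Or.inl rfl))]
  · intro x hx
    rw [Finset.mem_insert, Finset.mem_singleton] at hx
    rcases hx with rfl | rfl
    · exact h1
    · exact h2
  · intro x hx hx'
    apply h x hx
    intro hu
    rw [Finset.mem_insert, Finset.mem_singleton] at hx'
    exact hx' (unif_cases (Or.inl rfl) hu)

lemma be_nonunif {m : ℕ} (hm : 2 ≤ m) {x c : Col m} (hc : ColOK c) (hx : Near c x)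
    (hn : ¬ Unif x c) (k : ℕ) : be (k + 1) x c =
      (if cost (some x) c (some (sh c 1)) = 1 then al k c (sh c 1) else 0) +
      (if cost (some x) c (some (sh c (-1))) = 1 then al k c (sh c (-1)) else 0) := by
  rw [be, if_neg hn]
  unfold al'
  have h1 := cost_end_two hm hc hx hn
  rw [if_neg (by omega), zero_add, Finset.filter_true_of_mem, sum_nexts_two (by omega) hc]
  · intro c' _ hu
    rw [al_nonunif k hu]; simp
  · intro y hy hcon
    exact cont_not_mem hc hx hn (hcon ▸ hy)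

lemma be_unif {m : ℕ} (hm : 2 ≤ m) {c : Col m} (hc : ColOK c) {e : ℤ} (he : e = 1 ∨ e = -1)
    (k : ℕ) : be (k + 1) (sh c (-e)) c = (if k = 1 ∧ vt (-e) c = 2 then 1 else 0) +
      ((if vt (-e) c = 1 then be k c (sh c (-e)) - al k c (sh c (-e)) else
        if vt (-e) c = 2 then al (k - 1) c (sh c (-e)) else 0) +
      ∑ c' ∈ (nexts c).filter (fun c' => ¬ Unif c c'),
        if cost (some (sh c (-e))) c (some c') = 1 then be k c c' else 0) := by
  have he' : -e = 1 ∨ -e = -1 := by rcases he with rfl | rfl <;> simp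
  rw [be, if_pos (unif_sh he c), cost_sh_none he', filter_cont (by omega) hc he,
    Finset.sum_insert (not_mem_filter he), cost_sh_sh he']
  congr 2
  apply Finset.sum_congr rfl
  intro c' hc'
  rw [Finset.mem_filter] at hc'
  rw [al_nonunif k hc'.2, al_nonunif (k - 1) hc'.2]
  simp

/-- Contribution of the non-uniform steps from a monotone column. -/
lemma sum_nonunif_lin {m : ℕ} (hm : 2 ≤ m) {δ e : ℤ} (hδ : δ = 1 ∨ δ = -1)
    (he : e = 1 ∨ e = -1) (a : ℤ) (f : Col m → ℚ) :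
    ∑ c' ∈ (nexts (lin m δ a)).filter (fun c' => ¬ Unif (lin m δ a) c'),
      (if cost (some (sh (lin m δ a) e)) (lin m δ a) (some c') = 1 then f c' else 0) =
    ∑ t ∈ Finset.Ico 1 m, f (brk m δ a t) := by
  rw [Finset.sum_filter, sum_nexts_lin m hδ]
  symm
  rw [← Finset.sum_subset (s₁ := Finset.Ico 1 m) (s₂ := Finset.range (m + 1))]
  · apply Finset.sum_congr rfl
    intro t ht
    rw [Finset.mem_Ico] at ht
    rw [if_pos, if_pos (cost_lin_brk m hm hδ he a ht.1 ht.2)]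
    rw [unif_brk_iff m (by omega) hδ a (by omega)]
    omega
  · intro t ht
    rw [Finset.mem_Ico] at ht
    rw [Finset.mem_range]; omega
  · intro t ht ht'
    rw [Finset.mem_range] at ht
    rw [Finset.mem_Ico] at ht'
    rw [if_neg]
    rw [unif_brk_iff m (by omega) hδ a (by omega)]
    omega

lemma not_unif_brk {m : ℕ} {δ : ℤ} (hδ : δ = 1 ∨ δ = -1) (a : ℤ) {t : ℕ}
    (h1 : 1 ≤ t) (h2 : t < m) : ¬ Unif (lin m δ a) (brk m δ a t) := by
  rw [unif_brk_iff m (by omega) hδ a (by omega)]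
  omega

lemma be_brk {m : ℕ} (hm : 2 ≤ m) {δ : ℤ} (hδ : δ = 1 ∨ δ = -1) (a : ℤ) {t : ℕ}
    (h1 : 1 ≤ t) (h2 : t < m) (k : ℕ) : be (k + 1) (lin m δ a) (brk m δ a t) =
      al k (brk m δ a t) (sh (brk m δ a t) 1) + al k (brk m δ a t) (sh (brk m δ a t) (-1)) := by
  rw [be_nonunif hm (brk_colOK m hδ a t) ((brk_near m hδ a t).symm' (lin_colOK m hδ a))
    (not_unif_brk hδ a h1 h2),
    cost_brk_sh m hm hδ (Or.inl rfl) a h1 h2, cost_brk_sh m hm hδ (Or.inr rfl) a h1 h2]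
  simp

lemma vt_brk_iff {m : ℕ} (hm : 2 ≤ m) {δ : ℤ} (hδ : δ = 1 ∨ δ = -1) (a : ℤ) {t : ℕ}
    (h1 : 1 ≤ t) (h2 : t < m) :
    (vt (-δ) (brk m δ a t) = 1 ↔ t + 1 = m) ∧ (vt δ (brk m δ a t) = 1 ↔ t = 1) := by
  constructor
  · constructor
    · intro h
      by_contra hcon
      exact vt_brk_neg_ne m hm hδ a h1 (by omega) h
    · intro h
      have : t = m - 1 := by omega
      rw [this]
      exact vt_brk_neg_one m hm hδ a
  · constructor
    · intro h
      by_contra hcon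
      exact vt_brk_pos_ne m hm hδ a (by omega) h2 h
    · rintro rfl
      exact vt_brk_pos_one m hm hδ a

lemma be_two_brk {m : ℕ} (hm : 2 ≤ m) {δ : ℤ} (hδ : δ = 1 ∨ δ = -1) (a : ℤ) {t : ℕ}
    (h1 : 1 ≤ t) (h2 : t < m) : be 2 (lin m δ a) (brk m δ a t) =
      (if t + 1 = m then 1 else 0) + (if t = 1 then 1 else 0) := by
  rw [be_brk hm hδ a h1 h2, al_one' hm (brk_colOK m hδ a t) (Or.inl rfl),
    al_one' hm (brk_colOK m hδ a t) (Or.inr rfl)]
  obtain ⟨h3, h4⟩ := vt_brk_iff hm hδ a h1 h2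
  rcases hδ with rfl | rfl
  · simp only [neg_neg, h3, h4]
  · simp only [neg_neg] at h3 h4 ⊢
    simp only [h3, h4]
    ring

lemma be_three_brk {m : ℕ} (hm : 2 ≤ m) {δ : ℤ} (hδ : δ = 1 ∨ δ = -1) (a : ℤ) {t : ℕ}
    (h1 : 1 ≤ t) (h2 : t < m) (k : ℕ) : be (k + 3) (lin m δ a) (brk m δ a t) =
      if t + 1 = m ∧ t = 1 then 2 else 0 := by
  rw [be_brk hm hδ a h1 h2, al_two' hm k (brk_colOK m hδ a t) (Or.inl rfl),
    al_two' hm k (brk_colOK m hδ a t) (Or.inr rfl)]
  have h3 : Mono (brk m δ a t) ↔ (t + 1 = m ∧ t = 1) := by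
    rw [mono_iff _ hδ, (vt_brk_iff hm hδ a h1 h2).1, (vt_brk_iff hm hδ a h1 h2).2]
    tauto
  simp only [h3]
  split_ifs <;> norm_num

lemma sh_lin {m : ℕ} (δ a e : ℤ) : sh (lin m δ a) e = lin m δ (a + e) := by
  unfold lin; rw [sh_ofN]; congr 1; funext i; ring

lemma be_lin_one {m : ℕ} (hm : 2 ≤ m) {δ e : ℤ} (hδ : δ = 1 ∨ δ = -1)
    (he : e = 1 ∨ e = -1) (a : ℤ) : be 1 (sh (lin m δ a) (-e)) (lin m δ a) = 0 := by
  have he' : -e = 1 ∨ -e = -1 := by rcases he with rfl | rfl <;> simp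
  rw [be_unif hm (lin_colOK m hδ a) he 0, sum_nonunif_lin hm hδ he' a]
  simp [be, al]

lemma be_lin_two {m : ℕ} (hm : 2 ≤ m) {δ e : ℤ} (hδ : δ = 1 ∨ δ = -1)
    (he : e = 1 ∨ e = -1) (a : ℤ) : be 2 (sh (lin m δ a) (-e)) (lin m δ a) = -1 := by
  have he' : -e = 1 ∨ -e = -1 := by rcases he with rfl | rfl <;> simp
  rw [be_unif hm (lin_colOK m hδ a) he 1, sum_nonunif_lin hm hδ he' a, vt_lin m hm hδ he']
  have h1 : be 1 (lin m δ a) (sh (lin m δ a) (-e)) = 0 := by
    have := be_lin_one hm hδ he' (a + -e)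
    rw [← sh_lin, sh_sh, neg_neg, neg_add_cancel, sh_zero] at this
    exact this
  have h2 : al 1 (lin m δ a) (sh (lin m δ a) (-e)) = 1 := by
    rw [al_one' hm (lin_colOK m hδ a) he', vt_lin m hm hδ (by rcases he with rfl | rfl <;> simp)]
    simp
  have h3 : ∑ t ∈ Finset.Ico 1 m, be 1 (lin m δ a) (brk m δ a t) = 0 := by
    apply Finset.sum_eq_zero
    intro t ht
    rw [Finset.mem_Ico] at ht
    rw [be_brk hm hδ a ht.1 ht.2]
    simp [al]
  rw [h1, h2, h3]
  norm_num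

lemma be_lin_three {m : ℕ} (hm : 2 ≤ m) (k : ℕ) : ∀ {δ e : ℤ} (_ : δ = 1 ∨ δ = -1)
    (_ : e = 1 ∨ e = -1) (a : ℤ), be (k + 3) (sh (lin m δ a) (-e)) (lin m δ a) =
      if m = 2 then (k : ℚ) else -(k : ℚ) := by
  induction k with
  | zero =>
    intro δ e hδ he a
    have he' : -e = 1 ∨ -e = -1 := by rcases he with rfl | rfl <;> simp
    rw [be_unif hm (lin_colOK m hδ a) he 2, sum_nonunif_lin hm hδ he' a, vt_lin m hm hδ he']
    have h1 : be 2 (lin m δ a) (sh (lin m δ a) (-e)) = -1 := by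
      have := be_lin_two hm hδ he' (a + -e)
      rw [← sh_lin, sh_sh, neg_neg, neg_add_cancel, sh_zero] at this
      exact this
    have h2 : al 2 (lin m δ a) (sh (lin m δ a) (-e)) = 1 := by
      rw [al_two' hm 0 (lin_colOK m hδ a) he', if_pos (mono_lin m hm hδ a)]
    have h3 : ∑ t ∈ Finset.Ico 1 m, be 2 (lin m δ a) (brk m δ a t) = 2 := by
      have : ∀ t ∈ Finset.Ico 1 m, be 2 (lin m δ a) (brk m δ a t) =
          (if t = m - 1 then 1 else 0) + (if t = 1 then 1 else 0) := by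
        intro t ht
        rw [Finset.mem_Ico] at ht
        rw [be_two_brk hm hδ a ht.1 ht.2]
        congr 1
        apply if_congr _ rfl rfl
        omega
      rw [Finset.sum_congr rfl this, Finset.sum_add_distrib, Finset.sum_ite_eq',
        Finset.sum_ite_eq', if_pos (by rw [Finset.mem_Ico]; omega),
        if_pos (by rw [Finset.mem_Ico]; omega)]
      norm_num
    rw [h1, h2, h3]
    norm_num
  | succ k ih =>
    intro δ e hδ he a
    have he' : -e = 1 ∨ -e = -1 := by rcases he with rfl | rfl <;> simp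
    have e3 : k + 1 + 3 = (k + 3) + 1 := by ring
    rw [e3, be_unif hm (lin_colOK m hδ a) he (k + 3), sum_nonunif_lin hm hδ he' a,
      vt_lin m hm hδ he']
    have h1 : be (k + 3) (lin m δ a) (sh (lin m δ a) (-e)) = if m = 2 then (k : ℚ) else -(k : ℚ) := by
      have := ih hδ he' (a + -e)
      rw [← sh_lin, sh_sh, neg_neg, neg_add_cancel, sh_zero] at this
      exact this
    have h2 : al (k + 3) (lin m δ a) (sh (lin m δ a) (-e)) = 1 := by
      rw [al_two' hm (k + 1) (lin_colOK m hδ a) he', if_pos (mono_lin m hm hδ a)]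
    have h3 : ∑ t ∈ Finset.Ico 1 m, be (k + 3) (lin m δ a) (brk m δ a t) =
        if m = 2 then 2 else 0 := by
      have : ∀ t ∈ Finset.Ico 1 m, be (k + 3) (lin m δ a) (brk m δ a t) =
          if t = 1 then (if m = 2 then (2 : ℚ) else 0) else 0 := by
        intro t ht
        rw [Finset.mem_Ico] at ht
        rw [be_three_brk hm hδ a ht.1 ht.2]
        split_ifs with h4 h5 h6 h7 h8 <;> first | rfl | (exfalso; omega)
      rw [Finset.sum_congr rfl this, Finset.sum_ite_eq', if_pos (by rw [Finset.mem_Ico]; omega)]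
    rw [h1, h2, h3, if_neg (by omega), if_pos rfl]
    split_ifs with h4 <;> push_cast <;> ring

end Pool.Agent.Work.MP_562107_co
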