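import Pool.Agent.Work.MP_562107_co.Eval

namespace Pool.Agent.Work.MP_562107_co

open Classical

/-- The series after the first step. -/
noncomputable def S (d m : ℕ) : PowerSeries ℚ :=
  ∑ c ∈ starts m, ∑ c' ∈ nexts c,
    if cost none c (some c') ≤ d then G (d - cost none c (some c')) (some c) c' else 0

lemma F_eq (d m : ℕ) : F d m = PowerSeries.X * (PowerSeries.X * S d m) := by
  ext n
  unfold F
  rw [PowerSeries.coeff_mk]
  rcases n with _ | _ | n
  · simp
  · rw [PowerSeries.coeff_succ_X_mul]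
    simp
  · rw [if_pos (by omega), PowerSeries.coeff_succ_X_mul, PowerSeries.coeff_succ_X_mul, E_eq]
    unfold S
    push_cast
    rw [map_sum]
    apply Finset.sum_congr rfl
    intro c _
    rw [cnt, map_sum]
    push_cast
    apply Finset.sum_congr rfl
    intro c' _
    split_ifs
    · simp [G]
    · simp

lemma cost_none_pos {m : ℕ} (hm : 2 ≤ m) {c c' : Col m} (hc : ColOK c) (h : Near c c') :
    1 ≤ cost none c (some c') := by
  rw [cost_symm]; exact cost_end_pos hm hc h

lemma cost_none_two {m : ℕ} (hm : 2 ≤ m) {c c' : Col m} (hc : ColOK c) (h : Near c c')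
    (hn : ¬ Unif c c') : 2 ≤ cost none c (some c') := by
  rw [cost_symm]
  exact cost_end_two hm hc h (fun h' => hn (unif_symm h'))

lemma hasExp_S {m : ℕ} (hm : 2 ≤ m) (d : ℕ) : HasExp (d + 1) (S (d + 2) m)
    (∑ c ∈ starts m, ∑ c' ∈ nexts c, if cost none c (some c') = 1 then al (d + 1) c c' else 0)
    (∑ c ∈ starts m, ∑ c' ∈ nexts c, if cost none c (some c') = 1 then be (d + 1) c c' else
      if cost none c (some c') = 2 then al d c c' else 0) := by
  unfold S
  apply HasExp.sum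
  intro c hc
  have hok := ((mem_starts c).1 hc).1
  apply HasExp.sum
  intro c' hc'
  rw [← near_iff] at hc'
  have hpos := cost_none_pos hm hok hc'
  have hback := hc'.symm' hok
  by_cases h1 : cost none c (some c') = 1
  · rw [if_pos (by omega), if_pos h1, if_pos h1, h1]
    exact hasExp_G hm (d + 1) c c' hc'.2 hback
  · rw [if_neg h1, if_neg h1]
    by_cases h2 : cost none c (some c') = 2
    · rw [if_pos h2, if_pos (by omega), h2]
      exact (hasExp_G hm d c c' hc'.2 hback).lift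
    · rw [if_neg h2]
      split_ifs with h3
      · obtain ⟨r, hr⟩ : ∃ r, d + 1 = (d + 2 - cost none c (some c')) + 2 + r :=
          ⟨cost none c (some c') - 3, by omega⟩
        rw [hr]
        exact (hasExp_G hm _ c c' hc'.2 hback).lift' r
      · exact hasExp_zero _

/-! ### The sum over starting columns -/

lemma lin_mem_starts {m : ℕ} {δ : ℤ} (hδ : δ = 1 ∨ δ = -1) : lin m δ 0 ∈ starts m := by
  rw [mem_starts]
  refine ⟨lin_colOK m hδ 0, fun i hi => ?_⟩
  unfold lin ofN
  simp [hi]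

lemma lin_ne {m : ℕ} (hm : 2 ≤ m) (a : ℤ) : lin m 1 a ≠ lin m (-1) a := by
  intro h
  have := congrFun h ⟨1, by omega⟩
  unfold lin ofN at this
  simp at this

lemma sum_starts_mono {m : ℕ} (hm : 2 ≤ m) (f : Col m → ℚ) :
    ∑ c ∈ starts m, (if Mono c then f c else 0) = f (lin m 1 0) + f (lin m (-1) 0) := by
  rw [← Finset.sum_subset (s₁ := {lin m 1 0, lin m (-1) 0})]
  · rw [Finset.sum_pair (lin_ne hm 0), if_pos (mono_lin m hm (Or.inl rfl) 0),
      if_pos (mono_lin m hm (Or.inr rfl) 0)]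
  · intro x hx
    rw [Finset.mem_insert, Finset.mem_singleton] at hx
    rcases hx with rfl | rfl
    · exact lin_mem_starts (Or.inl rfl)
    · exact lin_mem_starts (Or.inr rfl)
  · intro x hx hx'
    rw [if_neg]
    intro hmono
    rw [mem_starts] at hx
    obtain ⟨δ, hδ, h⟩ := lin_of_mono hm hx.1 hmono
    rw [hx.2 ⟨0, by omega⟩ rfl] at h
    apply hx'
    rw [Finset.mem_insert, Finset.mem_singleton]
    rcases hδ with rfl | rfl
    · exact Or.inl h
    · exact Or.inr h

lemma S1_eq {m : ℕ} (hm : 2 ≤ m) (k : ℕ) :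
    (∑ c ∈ starts m, ∑ c' ∈ nexts c, if cost none c (some c') = 1 then al (k + 2) c c' else 0)
      = 4 := by
  have h1 : ∀ c ∈ starts m, (∑ c' ∈ nexts c,
      if cost none c (some c') = 1 then al (k + 2) c c' else 0) = if Mono c then 2 else 0 := by
    intro c hc
    have hok := ((mem_starts c).1 hc).1
    rw [sum_nexts_two (by omega) hok]
    · rw [cost_none_sh (Or.inl rfl), cost_none_sh (Or.inr rfl), al_two' hm k hok (Or.inl rfl),
        al_two' hm k hok (Or.inr rfl)]
      by_cases h : Mono c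
      · rw [if_pos h.1, if_pos h.2, if_pos h, if_pos h]; norm_num
      · simp [h]
    · intro c' _ hu
      rw [al_nonunif _ hu]; simp
  rw [Finset.sum_congr rfl h1, sum_starts_mono hm]
  norm_num

/-- Contribution of a non-monotone starting column. -/
noncomputable def T {m : ℕ} (e : ℤ) (c c' : Col m) : ℚ :=
  if ¬ Mono c ∧ vt e c = 1 ∧ Mono c' ∧ cost (some c) (sh c e) (some c') = 1 then
    (if cost (some (sh c e)) c' (some (sh c' 1)) = 1 then 1 else 0) +
    (if cost (some (sh c e)) c' (some (sh c' (-1))) = 1 then 1 else 0) else 0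

lemma be_nonmono {m : ℕ} (hm : 2 ≤ m) {c : Col m} (hc : ColOK c) (hn : ¬ Mono c) {e : ℤ}
    (he : e = 1 ∨ e = -1) (hv : vt e c = 1) (k : ℕ) :
    be (k + 4) c (sh c e) = ∑ c' ∈ nexts (sh c e), T e c c' := by
  have he' : -e = 1 ∨ -e = -1 := by rcases he with rfl | rfl <;> simp
  have hok := colOK_sh c e hc
  have h1 := be_unif hm hok he (k + 3)
  rw [sh_sh, add_neg_cancel, sh_zero] at h1
  rw [h1]
  have h2 : vt (-e) (sh c e) ≠ 1 := by
    rw [vt_sh]
    intro h
    exact hn ((mono_iff c he).2 ⟨hv, h⟩)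
  have h3 : al (k + 3 - 1) (sh c e) c = 0 := by
    have h4 := al_two' hm k hok he'
    rw [sh_sh, add_neg_cancel, sh_zero, mono_sh, if_neg hn] at h4
    exact h4
  rw [if_neg (by omega), if_neg h2, h3, zero_add]
  have h5 : (if vt (-e) (sh c e) = 2 then (0 : ℚ) else 0) = 0 := by split_ifs <;> rfl
  rw [h5, zero_add, Finset.sum_filter]
  apply Finset.sum_congr rfl
  intro c' hc'
  rw [← near_iff] at hc'
  unfold T
  by_cases hu : Unif (sh c e) c'
  · rw [if_neg (not_not.2 hu), if_neg]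
    rintro ⟨_, _, h6, _⟩
    rcases unif_cases he hu with h7 | h7
    · rw [h7, mono_sh, mono_sh] at h6; exact hn h6
    · rw [h7, mono_sh, mono_sh] at h6; exact hn h6
  · rw [if_pos hu]
    by_cases h6 : cost (some c) (sh c e) (some c') = 1
    · rw [if_pos h6, be_nonunif hm hc'.2 (hc'.symm' hok) hu (k + 2),
        al_two' hm k hc'.2 (Or.inl rfl), al_two' hm k hc'.2 (Or.inr rfl)]
      by_cases h7 : Mono c'
      · simp [h7, hn, hv, h6]
      · simp [h7]
    · rw [if_neg h6, if_neg (fun h => h6 h.2.2.2)]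

lemma S2_eq {m : ℕ} (hm : 2 ≤ m) (k : ℕ) :
    (∑ c ∈ starts m, ∑ c' ∈ nexts c, if cost none c (some c') = 1 then be (k + 4) c c' else
      if cost none c (some c') = 2 then al (k + 3) c c' else 0) =
      (if m = 2 then 4 * ((k : ℚ) + 1) else -4 * ((k : ℚ) + 1)) +
      ∑ c ∈ starts m, ((∑ c' ∈ nexts (sh c 1), T 1 c c') +
        ∑ c' ∈ nexts (sh c (-1)), T (-1) c c') := by
  have hT0 : ∀ c : Col m, ∀ e : ℤ, (Mono c ∨ vt e c ≠ 1) →
      ∑ c' ∈ nexts (sh c e), T e c c' = 0 := by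
    intro c e h
    apply Finset.sum_eq_zero
    intro c' _
    unfold T
    rw [if_neg]
    rintro ⟨h1, h2, _⟩
    rcases h with h | h
    · exact h1 h
    · exact h h2
  have h1 : ∀ c ∈ starts m, (∑ c' ∈ nexts c,
      if cost none c (some c') = 1 then be (k + 4) c c' else
      if cost none c (some c') = 2 then al (k + 3) c c' else 0) =
      (if Mono c then (be (k + 4) c (sh c 1) + be (k + 4) c (sh c (-1))) else 0) +
      ((∑ c' ∈ nexts (sh c 1), T 1 c c') + ∑ c' ∈ nexts (sh c (-1)), T (-1) c c') := by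
    intro c hc
    have hok := ((mem_starts c).1 hc).1
    rw [sum_nexts_two (by omega) hok]
    · rw [cost_none_sh (Or.inl rfl), cost_none_sh (Or.inr rfl),
        al_two' hm (k + 1) hok (Or.inl rfl), al_two' hm (k + 1) hok (Or.inr rfl)]
      by_cases h : Mono c
      · rw [if_pos h.1, if_pos h.2, if_pos h, hT0 c 1 (Or.inl h), hT0 c (-1) (Or.inl h)]
        ring
      · rw [if_neg h, if_neg h, zero_add]
        congr 1
        · by_cases hv : vt 1 c = 1
          · rw [if_pos hv, be_nonmono hm hok h (Or.inl rfl) hv k]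
          · rw [if_neg hv, hT0 c 1 (Or.inr hv)]
            split_ifs <;> rfl
        · by_cases hv : vt (-1) c = 1
          · rw [if_pos hv, be_nonmono hm hok h (Or.inr rfl) hv k]
          · rw [if_neg hv, hT0 c (-1) (Or.inr hv)]
            split_ifs <;> rfl
    · intro c' hc' hu
      rw [← near_iff] at hc'
      have h2 := cost_none_two hm hok hc' hu
      rw [if_neg (by omega), al_nonunif _ hu]
      split_ifs <;> rfl
  rw [Finset.sum_congr rfl h1, Finset.sum_add_distrib, sum_starts_mono hm]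
  congr 1
  have h2 : ∀ δ e : ℤ, (δ = 1 ∨ δ = -1) → (e = 1 ∨ e = -1) →
      be (k + 4) (lin m δ 0) (sh (lin m δ 0) e) = if m = 2 then ((k : ℚ) + 1) else -((k : ℚ) + 1) := by
    intro δ e hδ he
    have h3 := be_lin_three hm (k + 1) hδ he (0 + e)
    rw [← sh_lin, sh_sh, add_neg_cancel, sh_zero] at h3
    push_cast at h3
    exact h3
  rw [h2 1 1 (Or.inl rfl) (Or.inl rfl), h2 1 (-1) (Or.inl rfl) (Or.inr rfl),
    h2 (-1) 1 (Or.inr rfl) (Or.inl rfl), h2 (-1) (-1) (Or.inr rfl) (Or.inr rfl)]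
  split_ifs <;> ring

/-- Break position. -/
def brkPos (m : ℕ) (e δ : ℤ) : ℕ := if e = δ then 1 else m - 1

/-- The special starting column. -/
def spec (m : ℕ) (e δ : ℤ) : Col m := sh (brk m δ (e - δ) (brkPos m e δ)) (-e)

lemma T_support {m : ℕ} (hm : 2 ≤ m) {e : ℤ} (he : e = 1 ∨ e = -1) {c c' : Col m}
    (hc : c ∈ starts m) (hc' : c' ∈ nexts (sh c e)) (h : T e c c' ≠ 0) :
    ∃ δ : ℤ, (δ = 1 ∨ δ = -1) ∧ c = spec m e δ ∧ c' = lin m δ (e - δ) := by
  unfold T at h
  have h1 : ¬ Mono c ∧ vt e c = 1 ∧ Mono c' ∧ cost (some c) (sh c e) (some c') = 1 := by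
    by_contra hcon
    exact h (if_neg hcon)
  obtain ⟨h1, h2, h3, h4⟩ := h1
  rw [mem_starts] at hc
  rw [← near_iff] at hc'
  have hok := colOK_sh c e hc.1
  obtain ⟨δ, hδ, h5⟩ := lin_of_mono hm hc'.2 h3
  set a := c' ⟨0, by omega⟩ with ha
  have h6 : Near c' (sh c e) := hc'.symm' hok
  rw [h5] at h6
  obtain ⟨t, ht, h7⟩ := near_lin m hδ a (sh c e) h6
  have hnu : ¬ (t = 0 ∨ t = m) := by
    rw [← unif_brk_iff m (by omega) hδ a ht, ← h7]
    intro hu
    rcases unif_cases he hu with h8 | h8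
    · have := (mono_sh (lin m δ a) e).2 (mono_lin m hm hδ a)
      rw [← h8, mono_sh] at this
      exact h1 this
    · have := (mono_sh (lin m δ a) (-e)).2 (mono_lin m hm hδ a)
      rw [← h8, mono_sh] at this
      exact h1 this
  push Not at hnu
  have h8 : a = e - δ := by
    have h9 := congrFun h7 ⟨0, by omega⟩
    unfold sh brk ofN at h9
    rw [hc.2 ⟨0, by omega⟩ rfl] at h9
    have h10 : 0 < t := by omega
    simp only [h10, if_true, Nat.cast_zero, mul_zero] at h9
    linarith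
  have h9 : vt e (brk m δ a t) = 1 := by rw [← h7, vt_sh]; exact h2
  have h10 : t = brkPos m e δ := by
    unfold brkPos
    obtain ⟨h11, h12⟩ := vt_brk_iff hm hδ a (by omega : 1 ≤ t) (by omega : t < m)
    split_ifs with h13
    · rw [h13] at h9
      exact h12.1 h9
    · have h14 : e = -δ := by omega
      rw [h14] at h9
      have := h11.1 h9
      omega
  refine ⟨δ, hδ, ?_, ?_⟩
  · unfold spec
    rw [← h10, ← h8, ← h7, sh_sh, add_neg_cancel, sh_zero]
  · rw [h5, h8]

lemma T_spec {m : ℕ} (hm : 3 ≤ m) {e δ : ℤ} (he : e = 1 ∨ e = -1) (hδ : δ = 1 ∨ δ = -1) :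
    spec m e δ ∈ starts m ∧ lin m δ (e - δ) ∈ nexts (sh (spec m e δ) e) ∧
      T e (spec m e δ) (lin m δ (e - δ)) = 2 := by
  have he' : -e = 1 ∨ -e = -1 := by rcases he with rfl | rfl <;> simp
  have ht1 : 1 ≤ brkPos m e δ := by unfold brkPos; split_ifs <;> omega
  have ht2 : brkPos m e δ < m := by unfold brkPos; split_ifs <;> omega
  have hsh : sh (spec m e δ) e = brk m δ (e - δ) (brkPos m e δ) := by
    unfold spec; rw [sh_sh, neg_add_cancel, sh_zero]
  have hbok := brk_colOK m hδ (e - δ) (brkPos m e δ)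
  have hnear := brk_near m hδ (e - δ) (brkPos m e δ)
  have hlok := lin_colOK m hδ (e - δ)
  refine ⟨?_, ?_, ?_⟩
  · rw [mem_starts]
    refine ⟨colOK_sh _ _ hbok, fun i hi => ?_⟩
    unfold spec sh brk ofN
    rw [hi]
    have : 0 < brkPos m e δ := by omega
    simp only [this, if_true, Nat.cast_zero, mul_zero]
    ring
  · rw [hsh, ← near_iff]
    exact hnear.symm' hlok
  · unfold T
    obtain ⟨h11, h12⟩ := vt_brk_iff (by omega : 2 ≤ m) hδ (e - δ) ht1 ht2
    have hve : vt e (spec m e δ) = 1 ∧ vt (-e) (spec m e δ) ≠ 1 := by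
      unfold spec
      rw [vt_sh, vt_sh]
      by_cases h13 : e = δ
      · rw [h13] at h11 h12 ⊢
        have h14 : brkPos m δ δ = 1 := by unfold brkPos; simp
        rw [h14] at h11 h12 ⊢
        refine ⟨h12.2 rfl, fun h => ?_⟩
        have := h11.1 h
        omega
      · have h14 : e = -δ := by omega
        have h16 : brkPos m e δ = m - 1 := by unfold brkPos; rw [if_neg h13]
        rw [h16] at h11 h12 ⊢
        rw [h14] at h11 h12 ⊢
        refine ⟨h11.2 (by omega), fun h => ?_⟩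
        rw [neg_neg] at h
        have := h12.1 h
        omega
    have hnm : ¬ Mono (spec m e δ) := by
      rw [mono_iff _ he]
      exact fun h => hve.2 h.2
    have hc1 : cost (some (spec m e δ)) (sh (spec m e δ) e) (some (lin m δ (e - δ))) = 1 := by
      rw [cost_symm, hsh]
      unfold spec
      exact cost_brk_sh m (by omega) hδ he' (e - δ) ht1 ht2
    rw [if_pos ⟨hnm, hve.1, mono_lin m (by omega) hδ _, hc1⟩, hsh]
    have hc2 : ∀ e' : ℤ, (e' = 1 ∨ e' = -1) →
        cost (some (brk m δ (e - δ) (brkPos m e δ))) (lin m δ (e - δ))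
          (some (sh (lin m δ (e - δ)) e')) = 1 := by
      intro e' he'
      rw [cost_symm]
      exact cost_lin_brk m (by omega) hδ he' (e - δ) ht1 ht2
    rw [hc2 1 (Or.inl rfl), hc2 (-1) (Or.inr rfl)]
    norm_num

lemma sum_T {m : ℕ} (hm : 3 ≤ m) {e : ℤ} (he : e = 1 ∨ e = -1) :
    ∑ c ∈ starts m, ∑ c' ∈ nexts (sh c e), T e c c' = 4 := by
  rw [Finset.sum_sigma']
  rw [← Finset.sum_subset (s₁ := {(⟨spec m e 1, lin m 1 (e - 1)⟩ : Σ _ : Col m, Col m),
    ⟨spec m e (-1), lin m (-1) (e - (-1))⟩})]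
  · rw [Finset.sum_pair]
    · have h1 := (T_spec hm he (Or.inl rfl : (1 : ℤ) = 1 ∨ (1 : ℤ) = -1)).2.2
      have h2 := (T_spec hm he (Or.inr rfl : (-1 : ℤ) = 1 ∨ (-1 : ℤ) = -1)).2.2
      simp only [h1, h2]
      norm_num
    · intro h
      have h1 : lin m 1 (e - 1) = lin m (-1) (e - (-1)) := by
        have := congrArg Sigma.snd h
        exact this
      have := congrFun h1 ⟨0, by omega⟩
      unfold lin ofN at this
      simp at this
      omega
  · intro x hx
    rw [Finset.mem_insert, Finset.mem_singleton] at hx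
    rw [Finset.mem_sigma]
    rcases hx with rfl | rfl
    · have h1 := T_spec hm he (Or.inl rfl : (1 : ℤ) = 1 ∨ (1 : ℤ) = -1)
      exact ⟨h1.1, h1.2.1⟩
    · have h1 := T_spec hm he (Or.inr rfl : (-1 : ℤ) = 1 ∨ (-1 : ℤ) = -1)
      exact ⟨h1.1, h1.2.1⟩
  · rintro ⟨c, c'⟩ hx hx'
    rw [Finset.mem_sigma] at hx
    by_contra hcon
    obtain ⟨δ, hδ, h1, h2⟩ := T_support (by omega) he hx.1 hx.2 hcon
    apply hx'
    rw [Finset.mem_insert, Finset.mem_singleton]
    dsimp only at h1 h2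
    rcases hδ with rfl | rfl
    · left; rw [h1, h2]
    · right; rw [h1, h2]

lemma mono_of_two {c : Col 2} (hc : c ∈ starts 2) : Mono c := by
  rw [mem_starts] at hc
  have h0 := hc.2 0 rfl
  have h1 := hc.1 0 1 (Or.inl rfl)
  rw [h0] at h1
  rcases h1 with h1 | h1
  · have : c = lin 2 1 0 := by
      funext i
      unfold lin ofN
      fin_cases i
      · simpa using h0
      · simpa using h1
    rw [this]; exact mono_lin 2 (le_refl 2) (Or.inl rfl) 0
  · have : c = lin 2 (-1) 0 := by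
      funext i
      unfold lin ofN
      fin_cases i
      · simpa using h0
      · simpa using h1
    rw [this]; exact mono_lin 2 (le_refl 2) (Or.inr rfl) 0

lemma sum_T_two (e : ℤ) : ∑ c ∈ starts 2, ∑ c' ∈ nexts (sh c e), T e c c' = 0 := by
  apply Finset.sum_eq_zero
  intro c hc
  apply Finset.sum_eq_zero
  intro c' _
  unfold T
  rw [if_neg]
  exact fun h => h.1 (mono_of_two hc)

/-- The two leading coefficients of `F` at `z = 1`. -/
theorem hasExp_F {m : ℕ} (hm : 2 ≤ m) (k : ℕ) : HasExp (k + 4) (F (k + 5) m) 4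
    (if m = 2 then 4 * ((k : ℚ) - 1) else -4 * ((k : ℚ) + 1)) := by
  rw [F_eq]
  refine ((hasExp_S hm (k + 3)).mulX.mulX).congr ?_ ?_
  · exact S1_eq hm (k + 2)
  · rw [S1_eq hm (k + 2), S2_eq hm k, Finset.sum_add_distrib]
    by_cases h : m = 2
    · subst h
      rw [sum_T_two, sum_T_two]
      simp
      ring
    · rw [sum_T (by omega) (Or.inl rfl), sum_T (by omega) (Or.inr rfl), if_neg h, if_neg h]
      ring

/-! ### Principal parts -/

lemma inv_pow_mul (n : ℕ) :
    (1 - PowerSeries.X : PowerSeries ℚ) ^ n * ((1 - PowerSeries.X)⁻¹) ^ n = 1 := by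
  rw [← mul_pow, PowerSeries.mul_inv_cancel, one_pow]
  simp

lemma hasExp_unique {N : ℕ} {A : PowerSeries ℚ} {a b a' b' : ℚ} (h : HasExp N A a b)
    (h' : HasExp N A a' b') : a = a' ∧ b = b' := by
  obtain ⟨Q, h1, h2, h3⟩ := h
  obtain ⟨Q', h1', h2', h3'⟩ := h'
  have : Q = Q' := by
    apply Polynomial.coe_injective ℚ
    rw [← h1, ← h1']
  subst this
  refine ⟨h2.symm.trans h2', ?_⟩
  have := h3.symm.trans h3'
  linarith

lemma hasExp_pole (r : ℚ) (j : ℕ) :
    HasExp j (PowerSeries.C r * ((1 - PowerSeries.X)⁻¹) ^ j) r 0 := by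
  refine ⟨Polynomial.C r, ?_, by simp, by simp⟩
  rw [mul_left_comm, inv_pow_mul, mul_one]
  simp

lemma hasExp_poly (R : Polynomial ℚ) (r : ℕ) : HasExp (r + 2) (R : PowerSeries ℚ) 0 0 := by
  have h : HasExp 0 (R : PowerSeries ℚ) (R.eval 1) (-R.derivative.eval 1) :=
    ⟨R, by simp, rfl, by simp⟩
  have := h.lift' r
  rwa [zero_add, add_comm 2 r] at this

lemma hasExp_principal (N : ℕ) (c : ℕ → ℚ) (R : Polynomial ℚ) :
    HasExp (N + 2) ((∑ i ∈ Finset.Icc 1 (N + 2), PowerSeries.C (c i) *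
      ((1 - PowerSeries.X)⁻¹) ^ (N + 3 - i)) + (R : PowerSeries ℚ)) (c 1) (c 2) := by
  have h1 : HasExp (N + 2) (∑ i ∈ Finset.Icc 1 (N + 2), PowerSeries.C (c i) *
      ((1 - PowerSeries.X)⁻¹) ^ (N + 3 - i))
      (∑ i ∈ Finset.Icc 1 (N + 2), if i = 1 then c 1 else 0)
      (∑ i ∈ Finset.Icc 1 (N + 2), if i = 2 then c 2 else 0) := by
    apply HasExp.sum
    intro i hi
    rw [Finset.mem_Icc] at hi
    rcases Nat.lt_or_ge i 2 with h2 | h2
    · have : i = 1 := by omega
      subst this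
      exact hasExp_pole (c 1) (N + 2)
    · rcases Nat.lt_or_ge i 3 with h3 | h3
      · have : i = 2 := by omega
        subst this
        exact (hasExp_pole (c 2) (N + 1)).lift
      · rw [if_neg (by omega), if_neg (by omega)]
        obtain ⟨r, hr⟩ : ∃ r, N + 2 = (N + 3 - i) + 2 + r := ⟨i - 3, by omega⟩
        have h4 := (hasExp_pole (c i) (N + 3 - i)).lift' r
        rwa [← hr] at h4
  rw [Finset.sum_ite_eq', Finset.sum_ite_eq', if_pos (by rw [Finset.mem_Icc]; omega),
    if_pos (by rw [Finset.mem_Icc]; omega)] at h1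
  exact (h1.add (hasExp_poly R N)).congr (by ring) (by ring)

lemma sum_Icc_eq (N : ℕ) (f : ℕ → PowerSeries ℚ) :
    ∑ i ∈ Finset.Icc 1 N, f i = ∑ i ∈ Finset.range N, f (i + 1) := by
  induction N with
  | zero => simp
  | succ N ih => rw [Finset.sum_Icc_succ_top (by omega), Finset.sum_range_succ, ih]

lemma exists_principal (N : ℕ) : ∀ (A : PowerSeries ℚ) (Q : Polynomial ℚ),
    (1 - PowerSeries.X) ^ N * A = (Q : PowerSeries ℚ) →
    ∃ (c : ℕ → ℚ) (R : Polynomial ℚ), A = (∑ i ∈ Finset.Icc 1 N, PowerSeries.C (c i) *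
      ((1 - PowerSeries.X)⁻¹) ^ (N + 1 - i)) + (R : PowerSeries ℚ) := by
  induction N with
  | zero =>
    intro A Q h
    exact ⟨fun _ => 0, Q, by simpa using h⟩
  | succ N ih =>
    intro A Q h
    -- divide Q - Q(1) by 1 - X
    obtain ⟨Q₁, hQ₁⟩ : (1 - Polynomial.X : Polynomial ℚ) ∣ Q - Polynomial.C (Q.eval 1) := by
      have h1 : (Polynomial.X - Polynomial.C (1 : ℚ)) ∣ Q - Polynomial.C (Q.eval 1) := by
        rw [Polynomial.dvd_iff_isRoot]; simp
      have h2 : (1 - Polynomial.X : Polynomial ℚ) = -(Polynomial.X - Polynomial.C (1 : ℚ)) := by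
        simp
      rw [h2]
      exact (neg_dvd).2 h1
    set A' := A - PowerSeries.C (Q.eval 1) * ((1 - PowerSeries.X)⁻¹) ^ (N + 1) with hA'
    have h3 : (1 - PowerSeries.X) * ((1 - PowerSeries.X) ^ N * A') =
        (1 - PowerSeries.X) * (Q₁ : PowerSeries ℚ) := by
      have h4 : (Q : PowerSeries ℚ) - PowerSeries.C (Q.eval 1) =
          (1 - PowerSeries.X) * (Q₁ : PowerSeries ℚ) := by
        have := congrArg (fun P : Polynomial ℚ => (P : PowerSeries ℚ)) hQ₁
        simpa using this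
      rw [← h4, ← mul_assoc, ← pow_succ', hA', mul_sub, h, mul_left_comm, inv_pow_mul, mul_one]
    have hne : (1 - PowerSeries.X : PowerSeries ℚ) ≠ 0 := by
      intro h0
      have := congrArg (PowerSeries.coeff 0) h0
      simp at this
    obtain ⟨c, R, hc⟩ := ih A' Q₁ (mul_left_cancel₀ hne h3)
    refine ⟨fun i => if i = 1 then Q.eval 1 else c (i - 1), R, ?_⟩
    have h5 : A = PowerSeries.C (Q.eval 1) * ((1 - PowerSeries.X)⁻¹) ^ (N + 1) + A' := by
      rw [hA']; ring
    rw [h5, hc, ← add_assoc]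
    congr 1
    rw [sum_Icc_eq, sum_Icc_eq, Finset.sum_range_succ', add_comm]
    congr 1
    apply Finset.sum_congr rfl
    intro i _
    have e1 : N + 1 - (i + 1) = N + 1 + 1 - (i + 1 + 1) := by omega
    rw [e1]
    simp

end Pool.Agent.Work.MP_562107_co
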