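import Pool.Agent.Work.MP_562107_co.Costs

namespace Pool.Agent.Work.MP_562107_co

open Classical

/-- `(1-z)^N A(z)` is a polynomial `Q` with `Q(1) = a` and `Q'(1) = -b`. -/
def HasExp (N : ℕ) (A : PowerSeries ℚ) (a b : ℚ) : Prop :=
  ∃ Q : Polynomial ℚ, (1 - PowerSeries.X) ^ N * A = (Q : PowerSeries ℚ) ∧
    Q.eval 1 = a ∧ Q.derivative.eval 1 = -b

lemma hasExp_zero (N : ℕ) : HasExp N 0 0 0 := ⟨0, by simp, by simp, by simp⟩

lemma HasExp.add {N : ℕ} {A B : PowerSeries ℚ} {a b a' b' : ℚ} (h : HasExp N A a b)
    (h' : HasExp N B a' b') : HasExp N (A + B) (a + a') (b + b') := by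
  obtain ⟨Q, h1, h2, h3⟩ := h
  obtain ⟨Q', h1', h2', h3'⟩ := h'
  refine ⟨Q + Q', ?_, ?_, ?_⟩
  · rw [mul_add, h1, h1']; simp
  · simp [h2, h2']
  · simp [h3, h3']; ring

lemma HasExp.sum {ι : Type} {N : ℕ} (s : Finset ι) (A : ι → PowerSeries ℚ) (a b : ι → ℚ)
    (h : ∀ i ∈ s, HasExp N (A i) (a i) (b i)) :
    HasExp N (∑ i ∈ s, A i) (∑ i ∈ s, a i) (∑ i ∈ s, b i) := by
  induction s using Finset.induction_on with
  | empty => simpa using hasExp_zero N
  | insert i s hi ih =>
    rw [Finset.sum_insert hi, Finset.sum_insert hi, Finset.sum_insert hi]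
    exact (h i (Finset.mem_insert_self _ _)).add
      (ih fun j hj => h j (Finset.mem_insert_of_mem hj))

lemma HasExp.lift {N : ℕ} {A : PowerSeries ℚ} {a b : ℚ} (h : HasExp N A a b) :
    HasExp (N + 1) A 0 a := by
  obtain ⟨Q, h1, h2, h3⟩ := h
  refine ⟨(1 - Polynomial.X) * Q, ?_, ?_, ?_⟩
  · rw [pow_succ', mul_assoc, h1]; simp
  · simp
  · simp [h2]

lemma HasExp.lift' {N : ℕ} {A : PowerSeries ℚ} {a b : ℚ} (h : HasExp N A a b) (r : ℕ) :
    HasExp (N + 2 + r) A 0 0 := by
  induction r with
  | zero => exact h.lift.lift
  | succ r ih => exact ih.lift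

lemma HasExp.mulX {N : ℕ} {A : PowerSeries ℚ} {a b : ℚ} (h : HasExp N A a b) :
    HasExp N (PowerSeries.X * A) a (b - a) := by
  obtain ⟨Q, h1, h2, h3⟩ := h
  refine ⟨Polynomial.X * Q, ?_, ?_, ?_⟩
  · rw [mul_left_comm, h1]; simp
  · simp [h2]
  · simp [h2, h3]; ring

lemma HasExp.div {N : ℕ} {A B : PowerSeries ℚ} {a b : ℚ} (h : HasExp N B a b)
    (hAB : (1 - PowerSeries.X) * A = B) : HasExp (N + 1) A a b := by
  obtain ⟨Q, h1, h2, h3⟩ := h
  refine ⟨Q, ?_, h2, h3⟩
  rw [pow_succ, mul_assoc, hAB, h1]

lemma hasExp_C (r : ℚ) : HasExp 0 (PowerSeries.C r) r 0 :=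
  ⟨Polynomial.C r, by simp, by simp, by simp⟩

lemma HasExp.congr {N : ℕ} {A : PowerSeries ℚ} {a b a' b' : ℚ} (h : HasExp N A a b)
    (ha : a = a') (hb : b = b') : HasExp N A a' b' := by
  subst ha; subst hb; exact h

/-- Generating function of the continuations. -/
noncomputable def G {m : ℕ} (k : ℕ) (p : Option (Col m)) (c : Col m) : PowerSeries ℚ :=
  PowerSeries.mk fun n => (cnt n p c k : ℚ)

lemma G_rec {m : ℕ} (k : ℕ) (p : Option (Col m)) (c : Col m) :
    G k p c = PowerSeries.C (if cost p c none = k then 1 else 0) +
      PowerSeries.X * ∑ c' ∈ nexts c,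
        if cost p c (some c') ≤ k then G (k - cost p c (some c')) (some c) c' else 0 := by
  ext n
  rcases n with _ | n
  · rw [map_add]
    simp only [G, cnt, PowerSeries.coeff_mk, PowerSeries.coeff_zero_eq_constantCoeff, map_mul,
      PowerSeries.constantCoeff_C, PowerSeries.constantCoeff_X, zero_mul, add_zero]
    push_cast
    rfl
  · rw [map_add, PowerSeries.coeff_succ_X_mul, map_sum]
    have h1 : PowerSeries.coeff (n + 1) (PowerSeries.C (if cost p c none = k then (1 : ℚ) else 0)) = 0 := by
      rw [PowerSeries.coeff_C]; simp
    rw [h1, zero_add]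
    simp only [G, cnt, PowerSeries.coeff_mk]
    push_cast
    apply Finset.sum_congr rfl
    intro c' _
    split_ifs
    · simp
    · simp

lemma G_shift {m : ℕ} (k : ℕ) (c : Col m) (e : ℤ) :
    G k (some c) (sh c e) = G k (some (sh c (-e))) c := by
  unfold G
  congr 1
  funext n
  have := cnt_shift n (some (sh c (-e))) c k e
  simp only [Option.map_some, sh_sh] at this
  rw [neg_add_cancel, sh_zero] at this
  rw [this]

/-- Leading coefficients (without the geometric factor). -/
noncomputable def al {m : ℕ} : ℕ → Col m → Col m → ℚ
  | 0, _, _ => 0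
  | k + 1, x, c => if Unif x c then
      (if k = 0 ∧ cost (some x) c none = 1 then 1 else 0) +
        ∑ c' ∈ (nexts c).filter (fun c' => c' ≠ cont x c),
          if cost (some x) c (some c') = 1 then al k c c' else 0
      else 0

/-- Leading coefficient of the right-hand side. -/
noncomputable def al' {m : ℕ} (k : ℕ) (x c : Col m) : ℚ :=
  (if k = 0 ∧ cost (some x) c none = 1 then 1 else 0) +
    ∑ c' ∈ (nexts c).filter (fun c' => c' ≠ cont x c),
      if cost (some x) c (some c') = 1 then al k c c' else 0

/-- Second coefficients. -/
noncomputable def be {m : ℕ} : ℕ → Col m → Col m → ℚ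
  | 0, _, _ => 0
  | k + 1, x, c => if Unif x c then
      (if k = 1 ∧ cost (some x) c none = 2 then 1 else 0) +
        ∑ c' ∈ (nexts c).filter (fun c' => c' ≠ cont x c),
          if cost (some x) c (some c') = 1 then be k c c' - al k c c' else
          if cost (some x) c (some c') = 2 then al (k - 1) c c' else 0
      else al' k x c

/-- Second coefficient of the right-hand side. -/
noncomputable def be' {m : ℕ} (k : ℕ) (x c : Col m) : ℚ :=
  (if k = 1 ∧ cost (some x) c none = 2 then 1 else 0) +
    ∑ c' ∈ (nexts c).filter (fun c' => c' ≠ cont x c),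
      if cost (some x) c (some c') = 1 then be k c c' - al k c c' else
      if cost (some x) c (some c') = 2 then al (k - 1) c c' else 0

lemma cnt_zero {m : ℕ} (hm : 2 ≤ m) (n : ℕ) (x c : Col m) (hc : ColOK c) (hx : Near c x) :
    cnt n (some x) c 0 = 0 := by
  induction n generalizing x c with
  | zero =>
    unfold cnt
    have := cost_end_pos hm hc hx
    rw [if_neg (by omega)]
  | succ n ih =>
    unfold cnt
    apply Finset.sum_eq_zero
    intro c' hc'
    rw [← near_iff] at hc'
    split_ifs with h
    · have h0 : cost (some x) c (some c') = 0 := by omega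
      rw [h0]
      exact ih c c' hc'.2 (hc'.symm' hc)
    · rfl

theorem hasExp_G {m : ℕ} (hm : 2 ≤ m) (k : ℕ) : ∀ (x c : Col m), ColOK c → Near c x →
    HasExp k (G k (some x) c) (al k x c) (be k x c) := by
  induction k using Nat.strong_induction_on with
  | _ k ih =>
    intro x c hc hx
    rcases k with _ | k
    · have : G 0 (some x) c = 0 := by
        unfold G
        ext n
        rw [PowerSeries.coeff_mk, cnt_zero hm n x c hc hx]
        simp
      rw [this]
      exact hasExp_zero 0
    · -- the right-hand side
      set T : PowerSeries ℚ := PowerSeries.C (if cost (some x) c none = k + 1 then 1 else 0) +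
        PowerSeries.X * ∑ c' ∈ (nexts c).filter (fun c' => c' ≠ cont x c),
          if cost (some x) c (some c') ≤ k + 1 then
            G (k + 1 - cost (some x) c (some c')) (some c) c' else 0 with hT
      have hTexp : HasExp k T (al' k x c) (be' k x c) := by
        rw [hT, Finset.mul_sum]
        unfold al' be'
        apply HasExp.add
        · have hpos := cost_end_pos hm hc hx
          rcases k with _ | _ | k
          · refine (hasExp_C _).congr ?_ ?_ <;> simp
          · refine (hasExp_C _).lift.congr ?_ ?_ <;> simp
          · have h2 := (hasExp_C (if cost (some x) c none = k + 1 + 1 + 1 then 1 else 0)).lift' k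
            rw [zero_add, add_comm 2 k] at h2
            refine h2.congr ?_ ?_ <;> simp
        · apply HasExp.sum
          intro c' hc'
          rw [Finset.mem_filter, ← near_iff] at hc'
          obtain ⟨hc', hne⟩ := hc'
          have hpos := cost_turn_pos hc hx hc' hne
          have hback := hc'.symm' hc
          by_cases h1 : cost (some x) c (some c') = 1
          · rw [if_pos (by omega), if_pos h1, if_pos h1, h1]
            exact (ih k (by omega) c c' hc'.2 hback).mulX
          · rw [if_neg h1, if_neg h1]
            by_cases h2 : cost (some x) c (some c') = 2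
            · rw [if_pos h2, h2]
              rcases k with _ | k
              · rw [if_neg (by omega), mul_zero]
                simpa [al] using hasExp_zero 0
              · rw [if_pos (by omega)]
                refine ((ih k (by omega) c c' hc'.2 hback).lift.mulX).congr rfl ?_
                simp
            · rw [if_neg h2]
              split_ifs with h3
              · obtain ⟨r, hr⟩ : ∃ r, k = (k + 1 - cost (some x) c (some c')) + 2 + r :=
                  ⟨cost (some x) c (some c') - 3, by omega⟩
                have h4 := ((ih (k + 1 - cost (some x) c (some c')) (by omega) c c' hc'.2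
                  hback).lift' r).mulX
                rw [← hr] at h4
                exact h4.congr rfl (by ring)
              · rw [mul_zero]; exact hasExp_zero k
      by_cases hu : Unif x c
      · -- uniform
        have e1 : al (k + 1) x c = al' k x c := by
          rw [al, if_pos hu]; rfl
        have e2 : be (k + 1) x c = be' k x c := by
          rw [be, if_pos hu]; rfl
        rw [e1, e2]
        apply HasExp.div hTexp
        obtain ⟨e, he, rfl⟩ := (unif_iff x c).1 hu
        have hrec := G_rec (k + 1) (some (sh c (-e))) c
        have hmem : sh c e ∈ nexts c := (near_iff _ _).1 (near_sh he hc)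
        have hsplit : ∑ c' ∈ nexts c, (if cost (some (sh c (-e))) c (some c') ≤ k + 1 then
            G (k + 1 - cost (some (sh c (-e))) c (some c')) (some c) c' else 0) =
            G (k + 1) (some (sh c (-e))) c +
            ∑ c' ∈ (nexts c).filter (fun c' => c' ≠ cont (sh c (-e)) c),
              (if cost (some (sh c (-e))) c (some c') ≤ k + 1 then
              G (k + 1 - cost (some (sh c (-e))) c (some c')) (some c) c' else 0) := by
          rw [← Finset.add_sum_erase _ _ hmem, cost_cont he, if_pos (by omega), Nat.sub_zero,
            G_shift, cont_sh]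
          congr 2
          ext y
          rw [Finset.mem_erase, Finset.mem_filter]
          tauto
        rw [hsplit] at hrec
        rw [hT]
        linear_combination hrec
      · -- non-uniform
        have e1 : al (k + 1) x c = 0 := by
          rw [al, if_neg hu]
        have e2 : be (k + 1) x c = al' k x c := by
          rw [be, if_neg hu]
        rw [e1, e2]
        have hG : G (k + 1) (some x) c = T := by
          rw [hT, G_rec]
          congr 2
          apply Finset.sum_congr _ (fun _ _ => rfl)
          rw [Finset.filter_true_of_mem]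
          intro y hy hcon
          have hback := hx.symm' hc
          have hn : ¬ Unif x c := hu
          exact cont_not_mem hc hx hn (hcon ▸ hy)
        rw [hG]
        exact hTexp.lift

end Pool.Agent.Work.MP_562107_co
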